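import Mathlib
import Pool.Agent.Lib.P0c8ca5S.Defs

/-!
# The blockwise comparison of `(K, b)` and `(N_K(P), Br_P(b))`: definitions

`N` is a normal p'-subgroup of `K`, `e` a `K`-invariant block of `N`, `P ≤ K` a p-group, `b` a central
idempotent of `kK` below `e`.
* `Lp K P = N_K(P)`, `Cp K P = C_K(P)`.
* `Prm p M x`: `x` is p-regular modulo `M`.
* `cos M x`: the coset `M x`.
* `Tc N X e x`: the `N`-invariant elements `a` supported on the coset `X x` with `e a = a`; so
  `Tc N N e x = Ln N e x`.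
* `Un p N e z u`: `u` is the element of p-power order of the line of `z`.
* `Rs p K b`: the elements `a` of `Z(kK)` with `b a = a` that are constant on the p-sections; its dimension is
  the number of the irreducible representations of `K` in `b`.
* `Fs p K M b x`: the same on one coset `M x` of a normal subgroup `M` of `K` (`b` in `kM`).
* `CReps p K M X`: `X` is a set of representatives of the `K`-classes of the cosets of `M` that are p-regular
  modulo `M`.
* `Dl`: the condition `a(z) = a(pr z)` in terms of the lines.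
* `Par p N K P e`: `Tri p N K e` and `P ≤ K` is a p-group.
-/

namespace Pool.Agent.Lib.P0c8ca5.Bq

open MonoidAlgebra Ps

variable {p : ℕ} {k : Type*} [Field k] {A : Type*} [Group A]

/-- `N_K(P)` -/
abbrev Lp (K P : Subgroup A) : Subgroup A := K ⊓ Subgroup.normalizer (P : Set A)

/-- `C_K(P)` -/
abbrev Cp (K P : Subgroup A) : Subgroup A := K ⊓ Subgroup.centralizer (P : Set A)

/-- `x` is p-regular modulo `M` -/
def Prm (p : ℕ) (M : Subgroup A) (x : A) : Prop := ∃ m : ℕ, ¬ p ∣ m ∧ x ^ m ∈ M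

/-- the coset `M x` -/
def cos (M : Subgroup A) (x : A) : Set A := {z | z * x⁻¹ ∈ M}

theorem mem_cos {M : Subgroup A} {x z : A} : z ∈ cos M x ↔ z * x⁻¹ ∈ M := Iff.rfl

/-- the `N`-invariant elements supported on the coset `X x` with `e a = a` -/
def Tc (N X : Subgroup A) (e : MonoidAlgebra k A) (x : A) : Submodule k (MonoidAlgebra k A) where
  carrier := {u | (∀ z, u.coeff z ≠ 0 → z * x⁻¹ ∈ X) ∧ InvBy N u ∧ e * u = u}
  add_mem' := by
    rintro u v ⟨h1, h2, h3⟩ ⟨h1', h2', h3'⟩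
    refine ⟨fun z hz => ?_, fun n hn z => ?_, by rw [mul_add, h3, h3']⟩
    · by_contra h
      apply hz
      have e1 : u.coeff z = 0 := by by_contra h4; exact h (h1 z h4)
      have e2 : v.coeff z = 0 := by by_contra h4; exact h (h1' z h4)
      rw [coeff_add, Finsupp.add_apply, e1, e2, add_zero]
    · rw [coeff_add, Finsupp.add_apply, Finsupp.add_apply, h2 n hn, h2' n hn]
  zero_mem' := ⟨fun z hz => absurd rfl hz, fun _ _ _ => rfl, mul_zero _⟩
  smul_mem' := by
    rintro c u ⟨h1, h2, h3⟩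
    refine ⟨fun z hz => h1 z ?_, fun n hn z => ?_, by rw [mul_smul_comm, h3]⟩
    · intro h4
      apply hz
      rw [coeff_smul_apply, h4, smul_zero]
    · rw [coeff_smul_apply, coeff_smul_apply, h2 n hn]

theorem mem_Tc {N X : Subgroup A} {e : MonoidAlgebra k A} {x : A} {u : MonoidAlgebra k A} :
    u ∈ Tc N X e x ↔ (∀ z, u.coeff z ≠ 0 → z * x⁻¹ ∈ X) ∧ InvBy N u ∧ e * u = u := Iff.rfl

theorem Tc_self {N : Subgroup A} {e : MonoidAlgebra k A} {x : A} : Tc N N e x = Ln N e x := rfl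

/-- `u` is the element of p-power order of the line of `z` -/
def Un (p : ℕ) (N : Subgroup A) (e : MonoidAlgebra k A) (z : A) (u : MonoidAlgebra k A) : Prop :=
  u ∈ Ln N e z ∧ ∃ n : ℕ, u ^ p ^ n = e

/-- the elements of `Z(kK)` with `b a = a` that are constant on the p-sections -/
def Rs (p : ℕ) (K : Subgroup A) (b : MonoidAlgebra k A) : Submodule k (MonoidAlgebra k A) where
  carrier := {a | SuppIn K a ∧ InvBy K a ∧ (∀ z ∈ K, a.coeff (pr p z) = a.coeff z) ∧ b * a = a}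
  add_mem' := by
    rintro u v ⟨h1, h2, h3, h4⟩ ⟨h1', h2', h3', h4'⟩
    refine ⟨fun z hz => ?_, fun n hn z => ?_, fun z hz => ?_, by rw [mul_add, h4, h4']⟩
    · by_contra h
      apply hz
      have e1 : u.coeff z = 0 := by by_contra h5; exact h (h1 z h5)
      have e2 : v.coeff z = 0 := by by_contra h5; exact h (h1' z h5)
      rw [coeff_add, Finsupp.add_apply, e1, e2, add_zero]
    · rw [coeff_add, Finsupp.add_apply, Finsupp.add_apply, h2 n hn, h2' n hn]
    · rw [coeff_add, Finsupp.add_apply, Finsupp.add_apply, h3 z hz, h3' z hz]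
  zero_mem' := ⟨fun z hz => absurd rfl hz, fun _ _ _ => rfl, fun _ _ => rfl, mul_zero _⟩
  smul_mem' := by
    rintro c u ⟨h1, h2, h3, h4⟩
    refine ⟨fun z hz => h1 z ?_, fun n hn z => ?_, fun z hz => ?_, by rw [mul_smul_comm, h4]⟩
    · intro h5
      apply hz
      rw [coeff_smul_apply, h5, smul_zero]
    · rw [coeff_smul_apply, coeff_smul_apply, h2 n hn]
    · rw [coeff_smul_apply, coeff_smul_apply, h3 z hz]

theorem mem_Rs {K : Subgroup A} {b a : MonoidAlgebra k A} :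
    a ∈ Rs p K b ↔ SuppIn K a ∧ InvBy K a ∧ (∀ z ∈ K, a.coeff (pr p z) = a.coeff z) ∧
      b * a = a := Iff.rfl

/-- the same on one coset `M x` -/
def Fs (p : ℕ) (K M : Subgroup A) (b : MonoidAlgebra k A) (x : A) :
    Submodule k (MonoidAlgebra k A) where
  carrier := {a | (∀ z, a.coeff z ≠ 0 → z * x⁻¹ ∈ M) ∧
    (∀ y ∈ K, y * x * y⁻¹ * x⁻¹ ∈ M → ∀ z, a.coeff (y * z * y⁻¹) = a.coeff z) ∧
    (∀ z, z * x⁻¹ ∈ M → a.coeff (pr p z) = a.coeff z) ∧ b * a = a}
  add_mem' := by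
    rintro u v ⟨h1, h2, h3, h4⟩ ⟨h1', h2', h3', h4'⟩
    refine ⟨fun z hz => ?_, fun y hy hyx z => ?_, fun z hz => ?_, by rw [mul_add, h4, h4']⟩
    · by_contra h
      apply hz
      have e1 : u.coeff z = 0 := by by_contra h5; exact h (h1 z h5)
      have e2 : v.coeff z = 0 := by by_contra h5; exact h (h1' z h5)
      rw [coeff_add, Finsupp.add_apply, e1, e2, add_zero]
    · rw [coeff_add, Finsupp.add_apply, Finsupp.add_apply, h2 y hy hyx, h2' y hy hyx]
    · rw [coeff_add, Finsupp.add_apply, Finsupp.add_apply, h3 z hz, h3' z hz]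
  zero_mem' := ⟨fun z hz => absurd rfl hz, fun _ _ _ _ => rfl, fun _ _ => rfl, mul_zero _⟩
  smul_mem' := by
    rintro c u ⟨h1, h2, h3, h4⟩
    refine ⟨fun z hz => h1 z ?_, fun y hy hyx z => ?_, fun z hz => ?_,
      by rw [mul_smul_comm, h4]⟩
    · intro h5
      apply hz
      rw [coeff_smul_apply, h5, smul_zero]
    · rw [coeff_smul_apply, coeff_smul_apply, h2 y hy hyx]
    · rw [coeff_smul_apply, coeff_smul_apply, h3 z hz]

theorem mem_Fs {K M : Subgroup A} {b a : MonoidAlgebra k A} {x : A} :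
    a ∈ Fs p K M b x ↔ (∀ z, a.coeff z ≠ 0 → z * x⁻¹ ∈ M) ∧
    (∀ y ∈ K, y * x * y⁻¹ * x⁻¹ ∈ M → ∀ z, a.coeff (y * z * y⁻¹) = a.coeff z) ∧
    (∀ z, z * x⁻¹ ∈ M → a.coeff (pr p z) = a.coeff z) ∧ b * a = a := Iff.rfl

/-- representatives of the `K`-classes of the cosets of `M` that are p-regular modulo `M` -/
structure CReps (p : ℕ) (K M : Subgroup A) (X : Finset A) : Prop where
  sub : ∀ x ∈ X, x ∈ K ∧ Prm p M x
  ex : ∀ z ∈ K, Prm p M z → ∃ x ∈ X, ∃ y ∈ K, y * z * y⁻¹ * x⁻¹ ∈ M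
  uniq : ∀ x ∈ X, ∀ x' ∈ X, ∀ y ∈ K, y * x * y⁻¹ * x'⁻¹ ∈ M → x = x'

/-- the condition `a(z) = a(pr z)` on the coset `M x` in terms of the lines -/
def Dl (p : ℕ) (N M : Subgroup A) (e : MonoidAlgebra k A) (x : A) (a : MonoidAlgebra k A) :
    Prop :=
  ∀ z ∈ M, ∀ w, w * x⁻¹ ∈ M → (∃ n : ℕ, z ^ p ^ n ∈ N) → Prm p N w →
    z * w * z⁻¹ * w⁻¹ ∈ N → ∀ v, Un p N e z v → resS (cos N (z * w)) a = v * resS (cos N w) a

/-- `Tri p N K e` and `P ≤ K` is a p-group -/
structure Par (p : ℕ) (N K P : Subgroup A) (e : MonoidAlgebra k A) : Prop where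
  tri : Tri p N K e
  PK : P ≤ K
  PP : IsPGroup p P

end Pool.Agent.Lib.P0c8ca5.Bq
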