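import Mathlib
import Pool.Agent.Lib.P0c8ca5Q.Defs
import Pool.Agent.Lib.P0c8ca5N.ChC

/-!
# Module RvA: the space `Rs` in terms of class functions

PROOF.  Put `f z = a.coeff z⁻¹`.  `f` vanishes outside `K` iff `a` is supported in `K`; `f (h x h⁻¹) = f x` for
`h ∈ K` iff `InvBy K a` (`(h x h⁻¹)⁻¹ = h x⁻¹ h⁻¹`); `f (pr p x) = f x` iff `a.coeff (pr p z) = a.coeff z`
(`(pr p x)⁻¹ = pr p x⁻¹`: a power; `mem_XH`).  If `a` is `K`-invariant and `b` is supported in `K`: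
`conv b f z = ∑ h, b.coeff h * a.coeff (z⁻¹ h⁻¹)` and `(b * a).coeff z⁻¹ = ∑ h, b.coeff h * a.coeff (h⁻¹ z⁻¹)`
(`coeff_mul_fin`); for `h ∈ K` the two values of `a` agree (`h (h⁻¹ z⁻¹) h⁻¹ = z⁻¹ h⁻¹`), for `h ∉ K` `b.coeff h = 0`.
So `conv b f = f` iff `b * a = a`.
-/

namespace Pool.Agent.Lib.P0c8ca5.Bq

open MonoidAlgebra Ps

variable {p : ℕ} {k : Type*} [Field k] {A : Type*} [Group A]

theorem conv_inv [Fintype A] {K : Subgroup A} {b a : MonoidAlgebra k A} (hb : SuppIn K b)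
    (ha : InvBy K a) (z : A) : conv b (fun x => a.coeff x⁻¹) z = (b * a).coeff z⁻¹ := by
  rw [coeff_mul_fin]
  unfold conv
  refine Finset.sum_congr rfl fun h _ => ?_
  by_cases hh : b.coeff h = 0
  · rw [hh, zero_mul, zero_mul]
  · have hK : h ∈ K := hb h hh
    have e1 := ha h hK (h⁻¹ * z⁻¹)
    have e2 : h * (h⁻¹ * z⁻¹) * h⁻¹ = (h * z)⁻¹ := by group
    rw [e2] at e1
    show b.coeff h * a.coeff (h * z)⁻¹ = _
    rw [e1]

theorem mem_Rs_iff [Fintype A] {K : Subgroup A} {b a : MonoidAlgebra k A} (hb : SuppIn K b) :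
    a ∈ Rs p K b ↔ (fun x => a.coeff x⁻¹) ∈ XH p k K ∧
      conv b (fun x => a.coeff x⁻¹) = fun x => a.coeff x⁻¹ := by
  have hpr : ∀ x : A, (pr p x)⁻¹ = pr p x⁻¹ := fun x => by
    unfold pr
    rw [inv_pow]
  have hcj : ∀ h x : A, (h * x * h⁻¹)⁻¹ = h * x⁻¹ * h⁻¹ := fun h x => by group
  rw [mem_Rs, mem_XH]
  constructor
  · rintro ⟨h1, h2, h3, h4⟩
    refine ⟨⟨fun x hx => ?_, fun h hh x => ?_, fun x hx => ?_⟩, ?_⟩
    · by_contra hne
      exact hx (by simpa using K.inv_mem (h1 _ hne))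
    · show a.coeff (h * x * h⁻¹)⁻¹ = a.coeff x⁻¹
      rw [hcj]
      exact h2 h hh _
    · show a.coeff (pr p x)⁻¹ = a.coeff x⁻¹
      rw [hpr]
      exact h3 _ (K.inv_mem hx)
    · funext z
      rw [conv_inv hb h2, h4]
  · rintro ⟨⟨h1, h2, h3⟩, h4⟩
    have hinv : InvBy K a := fun g hg x => by
      have e1 : a.coeff (g * x⁻¹ * g⁻¹)⁻¹ = a.coeff (x⁻¹)⁻¹ := h2 g hg x⁻¹
      rw [hcj, inv_inv] at e1
      exact e1
    refine ⟨fun x hx => ?_, hinv, fun z hz => ?_, ?_⟩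
    · by_contra hne
      apply hx
      have e1 : a.coeff (x⁻¹)⁻¹ = 0 := h1 x⁻¹ (fun h => hne (by simpa using K.inv_mem h))
      rwa [inv_inv] at e1
    · have e1 : a.coeff (pr p z⁻¹)⁻¹ = a.coeff (z⁻¹)⁻¹ := h3 z⁻¹ (K.inv_mem hz)
      rw [hpr, inv_inv] at e1
      exact e1
    · refine MonoidAlgebra.ext (Finsupp.ext fun z => ?_)
      have e1 := conv_inv hb hinv z⁻¹
      rw [h4, inv_inv] at e1
      have e2 : a.coeff (z⁻¹)⁻¹ = (b * a).coeff z := e1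
      rw [inv_inv] at e2
      exact e2.symm

end Pool.Agent.Lib.P0c8ca5.Bq
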