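import Mathlib
import Pool.Agent.Lib.P0c8ca5Q.RvA
import Pool.Agent.Lib.P0c8ca5N.ChD
import Pool.Agent.Lib.P0c8ca5.LHS

/-!
# Module RvB: the dimension of `Rs`

PROOF of `conv_mem`.  `conv b` is linear in the function; `span_IrrCh` (P0c8ca5N.ChC): `XH p k K` is spanned by
`IrrCh k K`, and for `χ ∈ IrrCh k K` `conv b χ` is `χ` or `0` (`conv_eq_zero_of_ne` in P0c8ca5N.ChD).
`Submodule.span_induction`.
PROOF of `finrank_Rs`.  Let `S = {χ ∈ IrrCh k K | conv b χ = χ}` and `W = {f ∈ XH p k K | conv b f = f}`, a submodule of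
`A → k`.  The map `a ↦ (fun x => a.coeff x⁻¹)` is a linear equivalence from `Rs p K b` to `W` (`mem_Rs_iff`; the inverse
sends `f` to `MonoidAlgebra.ofCoeff (Finsupp.equivFunOnFinite.symm (fun x => f x⁻¹))`).  `W = span S`: `S ⊆ W` as `IrrCh ⊆ XH`
(`chi_mem_XH`); if `f ∈ W` then `f = ∑ c χ χ` over `IrrCh k K` and `f = conv b f = ∑ c χ (conv b χ)` is the sum of
the `c χ χ`, `χ ∈ S`.  `chi_linearIndependent` (P0c8ca5N.ChB): `S` is linearly independent, so `finrank W = Nat.card S`
(`finrank_span_set_eq_card` or `Module.finrank_eq_card_basis` with `Basis.span`).  `card_irr_inv` (P0c8ca5N.ChD) with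
`X = ⊥` (the condition on `h ∈ ⊥` is empty): `Nat.card (IrX K b) = Nat.card S` (`IrX K b` unfolds to
`Quotient (irrInvSetoid K ⊥ b)`).
-/

namespace Pool.Agent.Lib.P0c8ca5.Bq

open MonoidAlgebra Ps

variable {p : ℕ} {k : Type*} [Field k] {A : Type*} [Group A]

namespace RvBAux

theorem conv_zero [Fintype A] (b : MonoidAlgebra k A) : conv b (0 : A → k) = 0 := by
  funext x
  simp [conv]

theorem conv_add [Fintype A] (b : MonoidAlgebra k A) (f g : A → k) :
    conv b (f + g) = conv b f + conv b g := by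
  funext x
  simp only [conv, Pi.add_apply]
  rw [← Finset.sum_add_distrib]
  exact Finset.sum_congr rfl fun h _ => mul_add _ _ _

theorem conv_smul [Fintype A] (b : MonoidAlgebra k A) (c : k) (f : A → k) :
    conv b (c • f) = c • conv b f := by
  funext x
  simp only [conv, Pi.smul_apply, smul_eq_mul]
  rw [Finset.mul_sum]
  exact Finset.sum_congr rfl fun h _ => mul_left_comm _ _ _

/-- the irreducible characters fixed by `b` -/
abbrev Sb [Fintype A] (K : Subgroup A) (b : MonoidAlgebra k A) : Type _ :=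
  {χ : IrrCh k K // conv b (χ : A → k) = (χ : A → k)}

/-- the functions of `XH` fixed by `b` -/
def Wb [Fintype A] (p : ℕ) (K : Subgroup A) (b : MonoidAlgebra k A) : Submodule k (A → k) where
  carrier := {f | f ∈ XH p k K ∧ conv b f = f}
  add_mem' := by
    rintro f g ⟨h1, h2⟩ ⟨h3, h4⟩
    exact ⟨Submodule.add_mem _ h1 h3, by rw [conv_add, h2, h4]⟩
  zero_mem' := ⟨Submodule.zero_mem _, conv_zero b⟩
  smul_mem' := by
    rintro c f ⟨h1, h2⟩
    exact ⟨Submodule.smul_mem _ c h1, by rw [conv_smul, h2]⟩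

/-- elements of the group algebra as functions, with inversion -/
noncomputable def Ee [Fintype A] : MonoidAlgebra k A ≃ₗ[k] (A → k) where
  toFun a := fun x => a.coeff x⁻¹
  invFun f := MonoidAlgebra.ofCoeff (Finsupp.equivFunOnFinite.symm (fun x => f x⁻¹))
  map_add' a b := by
    funext x
    rw [coeff_add, Finsupp.add_apply]
    rfl
  map_smul' c a := by
    funext x
    rw [coeff_smul_apply]
    rfl
  left_inv a := by
    ext x
    simp
  right_inv f := by
    funext x
    simp

theorem Ee_apply [Fintype A] (a : MonoidAlgebra k A) : Ee a = fun x => a.coeff x⁻¹ := rfl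

end RvBAux

open RvBAux

/-- the space `XH` is stable under central idempotents -/
theorem conv_mem [Fact p.Prime] [CharP k p] [IsAlgClosed k] [Fintype A] {K : Subgroup A}
    {b : MonoidAlgebra k A} (hb : b ∈ fixAlg k K K) (hbb : b * b = b) {f : A → k}
    (hf : f ∈ XH p k K) : conv b f ∈ XH p k K := by
  obtain ⟨hs, hi⟩ := mem_fixAlg.1 hb
  rw [← span_IrrCh (p := p) K] at hf
  induction hf using Submodule.span_induction with
  | mem χ hχ =>
    by_cases h : conv b χ = χ
    · rw [h]
      obtain ⟨n, ρ, -, rfl⟩ := hχ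
      exact chi_mem_XH ρ
    · rw [conv_eq_zero_of_ne hs hi hbb ⟨χ, hχ⟩ h]
      exact Submodule.zero_mem _
  | zero => rw [conv_zero]; exact Submodule.zero_mem _
  | add f g _ _ h1 h2 => rw [conv_add]; exact Submodule.add_mem _ h1 h2
  | smul c f _ h => rw [conv_smul]; exact Submodule.smul_mem _ c h

theorem finrank_Rs [Fact p.Prime] [CharP k p] [IsAlgClosed k] [Fintype A] {K : Subgroup A}
    {b : MonoidAlgebra k A} (hb : b ∈ fixAlg k K K) (hbb : b * b = b) :
    Module.finrank k ↥(Rs p K b) = Nat.card (IrX K b) := by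
  obtain ⟨hs, hi⟩ := mem_fixAlg.1 hb
  -- the independent family
  have hli : LinearIndependent k (fun χ : Sb K b => ((χ.1 : IrrCh k K) : A → k)) :=
    (chi_linearIndependent (k := k) K).comp (fun χ : Sb K b => χ.1) Subtype.val_injective
  -- its span
  have hspan : Submodule.span k (Set.range (fun χ : Sb K b => ((χ.1 : IrrCh k K) : A → k)))
      = Wb p K b := by
    apply le_antisymm
    · rw [Submodule.span_le]
      rintro f ⟨χ, rfl⟩
      refine ⟨?_, χ.2⟩
      obtain ⟨⟨g, n, ρ, hρ, rfl⟩, h⟩ := χ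
      exact chi_mem_XH ρ
    · rintro f ⟨hf, hfb⟩
      rw [← hfb]
      have hgen : ∀ g ∈ Submodule.span k (IrrCh k K), conv b g ∈
          Submodule.span k (Set.range (fun χ : Sb K b => ((χ.1 : IrrCh k K) : A → k))) := by
        intro g hg
        induction hg using Submodule.span_induction with
        | mem χ hχ =>
          by_cases h : conv b χ = χ
          · rw [h]
            exact Submodule.subset_span ⟨⟨⟨χ, hχ⟩, h⟩, rfl⟩
          · rw [conv_eq_zero_of_ne hs hi hbb ⟨χ, hχ⟩ h]
            exact Submodule.zero_mem _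
        | zero => rw [conv_zero]; exact Submodule.zero_mem _
        | add f g _ _ h1 h2 => rw [conv_add]; exact Submodule.add_mem _ h1 h2
        | smul c f _ h => rw [conv_smul]; exact Submodule.smul_mem _ c h
      apply hgen
      rw [span_IrrCh (p := p) K]
      exact hf
  have hW : Module.finrank k ↥(Wb p K b) = Nat.card (Sb K b) := by
    rw [← hspan]
    exact Module.finrank_eq_nat_card_basis (Module.Basis.span hli)
  -- the linear equivalence
  have hmap : (Rs p K b).map (Ee (k := k) (A := A)).toLinearMap = Wb p K b := by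
    ext f
    constructor
    · rintro ⟨a, ha, rfl⟩
      exact (mem_Rs_iff hs).1 ha
    · intro hf
      refine ⟨Ee.symm f, ?_, Ee.apply_symm_apply f⟩
      refine (mem_Rs_iff hs).2 ?_
      rw [← Ee_apply, Ee.apply_symm_apply]
      exact hf
  have hfr : Module.finrank k ↥(Rs p K b) = Module.finrank k ↥(Wb p K b) := by
    rw [← hmap]
    exact (LinearEquiv.finrank_map_eq Ee (Rs p K b)).symm
  rw [hfr, hW]
  have hcard := card_irr_inv (k := k) (N := K) (X := ⊥) bot_le hs hi hbb
  have he : Nat.card {χ : IrrCh k K // conv b (χ : A → k) = (χ : A → k) ∧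
      ∀ h ∈ (⊥ : Subgroup A), ∀ x, (χ : A → k) (h * x * h⁻¹) = (χ : A → k) x}
      = Nat.card (Sb K b) := by
    refine Nat.card_congr (Equiv.subtypeEquivRight fun χ => ?_)
    constructor
    · exact fun h => h.1
    · refine fun h => ⟨h, fun g hg x => ?_⟩
      rw [Subgroup.mem_bot] at hg
      rw [hg, one_mul, inv_one, mul_one]
  rw [← he, ← hcard]

/-- `b a` is constant on the p-sections if `a` is -/
theorem mul_mem_Rs [Fact p.Prime] [CharP k p] [IsAlgClosed k] [Fintype A] {K : Subgroup A}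
    {b a : MonoidAlgebra k A} (hb : b ∈ fixAlg k K K) (hbb : b * b = b) (ha : a ∈ Rs p K 1) :
    b * a ∈ Rs p K b := by
  obtain ⟨hs, hi⟩ := mem_fixAlg.1 hb
  obtain ⟨h1, h2, -, -⟩ := mem_Rs.1 ha
  have hone : SuppIn K (1 : MonoidAlgebra k A) := (mem_fixAlg.1 (fixAlg k K K).one_mem).1
  have hX := ((mem_Rs_iff hone).1 ha).1
  have hba : b * a ∈ fixAlg k K K := (fixAlg k K K).mul_mem hb (mem_fixAlg.2 ⟨h1, h2⟩)
  have e1 : (fun x => (b * a).coeff x⁻¹) = conv b (fun x => a.coeff x⁻¹) := by
    funext z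
    exact (conv_inv hs h2 z).symm
  refine (mem_Rs_iff hs).2 ⟨?_, ?_⟩
  · rw [e1]
    exact conv_mem hb hbb hX
  · funext z
    rw [conv_inv hs (mem_fixAlg.1 hba).2 z, ← mul_assoc, hbb]

end Pool.Agent.Lib.P0c8ca5.Bq
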