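import Mathlib
import Pool.Agent.Lib.P0c8ca5Q.Defs
import Pool.Agent.Lib.P0c8ca5N.RegP

/-!
# Module Gq: group theory

PROOFS.
* `mul_mem_cos` etc.: cosets of a normal subgroup; write `z x⁻¹ = m ∈ M` and use `y m y⁻¹ ∈ M` for `y ∈ K`.
* `pow_cos`: `z = m x`; by induction `z ^ j * (x ^ j)⁻¹ ∈ M`.
* `pr_mem_cos`: let `u = uexp p A`.  `x ^ m ∈ M`, `p ∤ m`, and `x ^ |A| = 1`, so (Bezout) `x ^ d ∈ M` for `d = gcd(m, |A|)`,
  which divides `ordCompl[p] (Nat.card A)`; `u ≡ 1` modulo this number (`uexp_modEq`), so `x ^ u * x⁻¹ ∈ M`; then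
  `pow_cos`.
* `pr_one_cos`: `z ^ p ^ n ∈ M` and `z ^ |A| = 1`, so `z ^ d ∈ M` for `d = gcd(p ^ n, |A|)`, which divides
  `ordProj[p] (Nat.card A)` and so `u` (`uexp_dvd_ordProj`).
* `pr_pair`: modulo `N` `y = z w = w z`, so `pr y = z ^ u w ^ u` modulo `N`, `z ^ u ∈ N`, `w ^ u = w` modulo `N`.  (Use the quotient
  group `K / N`, or elements; for `pow` of `z w` with commuting images: by induction.)  Then
  `y (pr y)⁻¹ = z w w⁻¹ = z` modulo `N`.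
* `norm_inf`: `y ∈ N`, `y` normalizes `P`: `[y, u] ∈ N ⊓ P = ⊥` for `u ∈ P` (`N` is a p'-group, `P` is a p-group), so
  `y ∈ C(P)`.
* `frat`: `P` is a Sylow p-subgroup of `N ⊔ P` (index prime to `p`: `N` is a p'-group); for `x ∈ K` the group
  `x P x⁻¹ ≤ N ⊔ P` is conjugate to `P` under `N ⊔ P`, so under `N` (`N ⊔ P = N P`): `n⁻¹ x` normalizes `P`.
* `inf_eq`: `y = n c`, `n ∈ N`, `c ∈ Cp K P`; `n = y c⁻¹` normalizes `P`, so `n ∈ C(P)` by `norm_inf`.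
* `norm_N1`: `y = n l` (`frat`); `l` normalizes `N` and `Cp K P`; `n ∈ N ⊔ Cp K P`.
-/

namespace Pool.Agent.Lib.P0c8ca5.Bq

namespace GqAux

variable {p : ℕ} {A : Type*} [Group A]

theorem nm_iff {M : Subgroup A} {g : A} :
    g ∈ Subgroup.normalizer (M : Set A) ↔ ∀ m, m ∈ M ↔ g * m * g⁻¹ ∈ M := by
  rw [Subgroup.mem_normalizer_iff]

theorem nm_mem {M : Subgroup A} {g m : A} (hg : g ∈ Subgroup.normalizer (M : Set A))
    (hm : m ∈ M) : g * m * g⁻¹ ∈ M := (nm_iff.mp hg m).mp hm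

theorem nm_mem' {M : Subgroup A} {g m : A} (hg : g ∈ Subgroup.normalizer (M : Set A))
    (hm : m ∈ M) : g⁻¹ * m * g ∈ M := by
  have h := nm_mem (Subgroup.inv_mem _ hg) hm
  rwa [inv_inv] at h

theorem nm_of {M : Subgroup A} {g : A} (h1 : ∀ m ∈ M, g * m * g⁻¹ ∈ M)
    (h2 : ∀ m ∈ M, g⁻¹ * m * g ∈ M) : g ∈ Subgroup.normalizer (M : Set A) := by
  rw [nm_iff]
  intro m
  refine ⟨fun h => h1 m h, fun h => ?_⟩
  have h3 := h2 _ h
  have e : g⁻¹ * (g * m * g⁻¹) * g = m := by group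
  rwa [e] at h3

theorem self_le (M : Subgroup A) : M ≤ Subgroup.normalizer (M : Set A) := by
  intro g hg
  exact nm_of (fun m hm => M.mul_mem (M.mul_mem hg hm) (M.inv_mem hg))
    (fun m hm => M.mul_mem (M.mul_mem (M.inv_mem hg) hm) hg)

theorem cen_iff {P : Subgroup A} {g : A} :
    g ∈ Subgroup.centralizer (P : Set A) ↔ ∀ u ∈ P, u * g = g * u := by
  rw [Subgroup.mem_centralizer_iff]
  exact Iff.rfl

theorem cen_nm {P : Subgroup A} {g : A} (hg : g ∈ Subgroup.centralizer (P : Set A)) :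
    g ∈ Subgroup.normalizer (P : Set A) := by
  rw [cen_iff] at hg
  apply nm_of
  · intro m hm
    have h := hg m hm
    have e : g * m * g⁻¹ = m := by rw [← h]; group
    rwa [e]
  · intro m hm
    have h := hg m hm
    have e : g⁻¹ * m * g = m := by rw [mul_assoc, h]; group
    rwa [e]

theorem pow_gcd_mem {M : Subgroup A} {x : A} {a b : ℕ} (ha : x ^ a ∈ M) (hb : x ^ b ∈ M) :
    x ^ Nat.gcd a b ∈ M := by
  have h : x ^ ((Nat.gcd a b : ℕ) : ℤ) ∈ M := by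
    rw [Nat.gcd_eq_gcd_ab, zpow_add, zpow_mul, zpow_mul, zpow_natCast, zpow_natCast]
    exact M.mul_mem (M.zpow_mem ha _) (M.zpow_mem hb _)
  rwa [zpow_natCast] at h

theorem pow_of_dvd {M : Subgroup A} {x : A} {d a : ℕ} (hd : d ∣ a) (h : x ^ d ∈ M) :
    x ^ a ∈ M := by
  obtain ⟨c, rfl⟩ := hd
  rw [pow_mul]
  exact M.pow_mem h c

theorem pow_modEq {M : Subgroup A} {x : A} {d a : ℕ} (h : x ^ d ∈ M) (ha : a ≡ 1 [MOD d]) :
    x ^ a * x⁻¹ ∈ M := by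
  have h1 : (d : ℤ) ∣ (a : ℤ) - 1 := by
    have h2 := (Nat.modEq_iff_dvd.mp ha.symm)
    simpa using h2
  obtain ⟨c, hc⟩ := h1
  have e : x ^ a * x⁻¹ = (x ^ d) ^ c := by
    rw [← zpow_natCast x a, ← zpow_natCast x d, ← zpow_mul, ← hc, zpow_sub, zpow_one]
  rw [e]
  exact M.zpow_mem h c

theorem sup_iff {N C : Subgroup A} (h : C ≤ Subgroup.normalizer (N : Set A)) {y : A} :
    y ∈ N ⊔ C ↔ ∃ n ∈ N, ∃ c ∈ C, y = n * c := by
  constructor
  · intro hy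
    have h1 : y ∈ ((N ⊔ C : Subgroup A) : Set A) := hy
    rw [Subgroup.coe_mul_of_right_le_normalizer_left N C h] at h1
    obtain ⟨n, hn, c, hc, rfl⟩ := Set.mem_mul.mp h1
    exact ⟨n, hn, c, hc, rfl⟩
  · rintro ⟨n, hn, c, hc, rfl⟩
    exact Subgroup.mul_mem_sup hn hc

theorem p_inf [Fact p.Prime] {N P : Subgroup A} (hP : IsPGroup p P) (hN : ¬ p ∣ Nat.card N)
    {t : A} (ht1 : t ∈ N) (ht2 : t ∈ P) : t = 1 := by
  have hp : p.Prime := Fact.out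
  obtain ⟨j, hj⟩ := hP ⟨t, ht2⟩
  have hj' : t ^ p ^ j = 1 := by
    have := congrArg (Subtype.val) hj
    simpa using this
  have hc : t ^ Nat.card N = 1 := by
    have h3 : (⟨t, ht1⟩ : N) ^ Nat.card N = 1 := pow_card_eq_one'
    exact congrArg (Subtype.val) h3
  have hg : Nat.gcd (p ^ j) (Nat.card N) = 1 :=
    Nat.Coprime.pow_left _ ((Nat.Prime.coprime_iff_not_dvd hp).mpr hN)
  have h4 : orderOf t ∣ Nat.gcd (p ^ j) (Nat.card N) :=
    Nat.dvd_gcd (orderOf_dvd_of_pow_eq_one hj') (orderOf_dvd_of_pow_eq_one hc)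
  rw [hg, Nat.dvd_one, orderOf_eq_one_iff] at h4
  exact h4

theorem index_eq [Fact p.Prime] {N P : Subgroup A} (hP : IsPGroup p P)
    (hN : ¬ p ∣ Nat.card N) (hPN : P ≤ Subgroup.normalizer (N : Set A)) :
    (P.subgroupOf (N ⊔ P)).index = Nat.card N := by
  have hNH : N ≤ N ⊔ P := le_sup_left
  let f : N → (↥(N ⊔ P)) ⧸ P.subgroupOf (N ⊔ P) :=
    fun n => QuotientGroup.mk (⟨(n : A), hNH n.2⟩ : ↥(N ⊔ P))
  have hf : Function.Bijective f := by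
    constructor
    · intro n n' hnn
      have h1 : (⟨(n : A), hNH n.2⟩ : ↥(N ⊔ P))⁻¹ * ⟨(n' : A), hNH n'.2⟩ ∈
          P.subgroupOf (N ⊔ P) := QuotientGroup.eq.mp hnn
      rw [Subgroup.mem_subgroupOf] at h1
      have h2 : (n : A)⁻¹ * n' ∈ P := h1
      have h3 := p_inf hP hN (N.mul_mem (N.inv_mem n.2) n'.2) h2
      apply Subtype.ext
      exact inv_mul_eq_one.mp h3
    · intro q
      obtain ⟨⟨h, hh⟩, rfl⟩ := QuotientGroup.mk_surjective q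
      obtain ⟨n, hn, u, hu, rfl⟩ := (sup_iff hPN).mp hh
      refine ⟨⟨n, hn⟩, ?_⟩
      refine QuotientGroup.eq.mpr ?_
      rw [Subgroup.mem_subgroupOf]
      show n⁻¹ * (n * u) ∈ P
      rw [inv_mul_cancel_left]
      exact hu
  exact (Nat.card_congr (Equiv.ofBijective f hf)).symm

theorem nm_sup {N C : Subgroup A} {g : A} (h1 : g ∈ Subgroup.normalizer (N : Set A))
    (h2 : g ∈ Subgroup.normalizer (C : Set A)) :
    g ∈ Subgroup.normalizer ((N ⊔ C : Subgroup A) : Set A) := by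
  have key : ∀ g : A, g ∈ Subgroup.normalizer (N : Set A) → g ∈ Subgroup.normalizer (C : Set A) →
      ∀ m ∈ N ⊔ C, g * m * g⁻¹ ∈ N ⊔ C := by
    intro g h1 h2 m hm
    have h3 : N ⊔ C ≤ (N ⊔ C).comap (MulAut.conj g).toMonoidHom := by
      refine sup_le ?_ ?_
      · intro a ha
        rw [Subgroup.mem_comap]
        show g * a * g⁻¹ ∈ N ⊔ C
        exact (le_sup_left : N ≤ N ⊔ C) (nm_mem h1 ha)
      · intro a ha
        rw [Subgroup.mem_comap]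
        show g * a * g⁻¹ ∈ N ⊔ C
        exact (le_sup_right : C ≤ N ⊔ C) (nm_mem h2 ha)
    exact Subgroup.mem_comap.mp (h3 hm)
  refine nm_of (key g h1 h2) ?_
  intro m hm
  have := key g⁻¹ (Subgroup.inv_mem _ h1) (Subgroup.inv_mem _ h2) m hm
  rwa [inv_inv] at this

end GqAux

open GqAux

open MonoidAlgebra Ps

variable {p : ℕ} {k : Type*} [Field k] {A : Type*} [Group A]

theorem conj_cos {K M : Subgroup A} (hn : K ≤ Subgroup.normalizer (M : Set A)) {x y z : A}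
    (hy : y ∈ K) (hyx : y * x * y⁻¹ * x⁻¹ ∈ M) (hz : z * x⁻¹ ∈ M) :
    y * z * y⁻¹ * x⁻¹ ∈ M := by
  have e : y * z * y⁻¹ * x⁻¹ = (y * (z * x⁻¹) * y⁻¹) * (y * x * y⁻¹ * x⁻¹) := by group
  rw [e]
  exact M.mul_mem (nm_mem (hn hy) hz) hyx

theorem pow_cos {K M : Subgroup A} (hn : K ≤ Subgroup.normalizer (M : Set A)) {x z : A}
    (hx : x ∈ K) (hz : z * x⁻¹ ∈ M) (j : ℕ) : z ^ j * (x ^ j)⁻¹ ∈ M := by
  induction j with
  | zero => simp
  | succ j ih =>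
    have e : z ^ (j + 1) * (x ^ (j + 1))⁻¹ =
        (z ^ j * (x ^ j)⁻¹) * (x ^ j * (z * x⁻¹) * (x ^ j)⁻¹) := by
      rw [pow_succ, pow_succ]
      group
    rw [e]
    exact M.mul_mem ih (nm_mem (hn (K.pow_mem hx j)) hz)

theorem pr_mem_cos [Fact p.Prime] [Fintype A] {K M : Subgroup A}
    (hn : K ≤ Subgroup.normalizer (M : Set A)) {x z : A}
    (hx : x ∈ K) (hxr : Prm p M x) (hz : z * x⁻¹ ∈ M) : pr p z * x⁻¹ ∈ M := by
  have hp : p.Prime := Fact.out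
  obtain ⟨m, hm, hxm⟩ := hxr
  have hn0 : Nat.card A ≠ 0 := Nat.card_pos.ne'
  have h1 : x ^ Nat.card A ∈ M := by
    rw [pow_card_eq_one']
    exact M.one_mem
  have h2 := pow_gcd_mem hxm h1
  have h3 : Nat.gcd m (Nat.card A) ∣ ordCompl[p] (Nat.card A) := by
    have h4 : Nat.gcd m (Nat.card A) ∣ ordProj[p] (Nat.card A) * ordCompl[p] (Nat.card A) := by
      rw [Nat.ordProj_mul_ordCompl_eq_self]
      exact Nat.gcd_dvd_right _ _
    refine Nat.Coprime.dvd_of_dvd_mul_left ?_ h4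
    refine Nat.Coprime.pow_right _ ?_
    exact ((Nat.Prime.coprime_iff_not_dvd hp).mpr
      (fun h => hm (h.trans (Nat.gcd_dvd_left _ _)))).symm
  have h5 : x ^ uexp p A * x⁻¹ ∈ M :=
    pow_modEq h2 ((uexp_modEq (p := p) (A := A)).of_dvd h3)
  have h6 := pow_cos hn hx hz (uexp p A)
  have e : pr p z * x⁻¹ = (z ^ uexp p A * (x ^ uexp p A)⁻¹) * (x ^ uexp p A * x⁻¹) := by
    unfold pr
    group
  rw [e]
  exact M.mul_mem h6 h5

theorem pr_one_cos [Fact p.Prime] [Fintype A] {M : Subgroup A} {z : A} {n : ℕ}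
    (hz : z ^ p ^ n ∈ M) : pr p z ∈ M := by
  have hp : p.Prime := Fact.out
  have hn0 : Nat.card A ≠ 0 := Nat.card_pos.ne'
  have h1 : z ^ Nat.card A ∈ M := by
    rw [pow_card_eq_one']
    exact M.one_mem
  have h2 := pow_gcd_mem hz h1
  refine pow_of_dvd (dvd_trans ?_ (uexp_dvd_ordProj (p := p) (A := A))) h2
  obtain ⟨j, -, hj⟩ := (Nat.dvd_prime_pow hp).mp (Nat.gcd_dvd_left (p ^ n) (Nat.card A))
  rw [hj]
  apply pow_dvd_pow
  rw [← Nat.Prime.pow_dvd_iff_le_factorization hp hn0, ← hj]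
  exact Nat.gcd_dvd_right _ _

/-- a p-regular element modulo `M` of the form `pr` lies in the same coset -/
theorem prm_of_preg [Fact p.Prime] [Finite A] {M : Subgroup A} {x : A} (hx : Preg p x) :
    Prm p M x := by
  refine ⟨orderOf x, hx, ?_⟩
  rw [pow_orderOf_eq_one]
  exact M.one_mem

theorem pr_pair [Fact p.Prime] [Fintype A] {K N : Subgroup A}
    (hn : K ≤ Subgroup.normalizer (N : Set A)) {z w y : A} (hz : z ∈ K) (hw : w ∈ K)
    (hzn : ∃ n : ℕ, z ^ p ^ n ∈ N) (hwr : Prm p N w) (hzw : z * w * z⁻¹ * w⁻¹ ∈ N)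
    (hy : y * (z * w)⁻¹ ∈ N) : pr p y * w⁻¹ ∈ N ∧ y * (pr p y)⁻¹ * z⁻¹ ∈ N := by
  have hp : p.Prime := Fact.out
  obtain ⟨n, hzn⟩ := hzn
  have h1 : pr p z ∈ N := pr_one_cos hzn
  have h2 : pr p w * w⁻¹ ∈ N := pr_mem_cos hn hw hwr (by rw [mul_inv_cancel]; exact N.one_mem)
  have hzL := hn hz
  have hwL := hn hw
  have hyL : y ∈ Subgroup.normalizer (N : Set A) := by
    have e : y = (y * (z * w)⁻¹) * (z * w) := by group
    rw [e]
    exact Subgroup.mul_mem _ (self_le N hy) (Subgroup.mul_mem _ hzL hwL)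
  let L : Subgroup A := Subgroup.normalizer (N : Set A)
  let N' : Subgroup L := N.subgroupOf L
  have hN' : N'.Normal := by
    refine ⟨fun a ha g => ?_⟩
    rw [Subgroup.mem_subgroupOf] at ha ⊢
    exact nm_mem g.2 ha
  let π : L →* L ⧸ N' := QuotientGroup.mk' N'
  have hπ : ∀ a : L, π a = 1 ↔ (a : A) ∈ N := by
    intro a
    have h3 : π a = 1 ↔ a ∈ N' := QuotientGroup.eq_one_iff a
    rw [h3, Subgroup.mem_subgroupOf]
  let z' : L := ⟨z, hzL⟩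
  let w' : L := ⟨w, hwL⟩
  let y' : L := ⟨y, hyL⟩
  have e1 : π z' ^ uexp p A = 1 := by
    rw [← map_pow]
    exact (hπ _).mpr h1
  have e2 : π w' ^ uexp p A = π w' := by
    rw [← mul_inv_eq_one, ← map_pow, ← map_inv, ← map_mul]
    exact (hπ _).mpr h2
  have e3 : π z' * π w' = π w' * π z' := by
    rw [← mul_inv_eq_one, mul_inv_rev, ← map_mul, ← map_inv, ← map_inv, ← map_mul, ← map_mul]
    refine (hπ _).mpr ?_
    have e : ((z' * w' * (z'⁻¹ * w'⁻¹) : L) : A) = z * w * z⁻¹ * w⁻¹ := by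
      show z * w * (z⁻¹ * w⁻¹) = _
      group
    rw [e]
    exact hzw
  have e4 : π y' = π z' * π w' := by
    rw [← mul_inv_eq_one, ← map_mul, ← map_inv, ← map_mul]
    exact (hπ _).mpr hy
  have e5 : π y' ^ uexp p A = π w' := by
    rw [e4, (show Commute (π z') (π w') from e3).mul_pow, e1, e2, one_mul]
  constructor
  · refine (hπ (y' ^ uexp p A * w'⁻¹)).mp ?_
    rw [map_mul, map_pow, e5, map_inv, mul_inv_cancel]
  · refine (hπ (y' * (y' ^ uexp p A)⁻¹ * z'⁻¹)).mp ?_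
    rw [map_mul, map_mul, map_inv, map_inv, map_pow, e5, e4]
    group

theorem Par.norm_inf [Fact p.Prime] [Finite A] {N K P : Subgroup A} {e : MonoidAlgebra k A}
    (h : Par p N K P e) {y : A} (hy : y ∈ N) (hyP : y ∈ Subgroup.normalizer (P : Set A)) :
    y ∈ Subgroup.centralizer (P : Set A) := by
  have hp : p.Prime := Fact.out
  rw [cen_iff]
  intro u hu
  have h1 : y * u * y⁻¹ * u⁻¹ ∈ P := P.mul_mem (nm_mem hyP hu) (P.inv_mem hu)
  have h2 : y * u * y⁻¹ * u⁻¹ ∈ N := by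
    have e : y * u * y⁻¹ * u⁻¹ = y * (u * y⁻¹ * u⁻¹) := by group
    rw [e]
    exact N.mul_mem hy (nm_mem (h.tri.nm (h.PK hu)) (N.inv_mem hy))
  have h3 := p_inf h.PP h.tri.pp h2 h1
  have e : u * y = (y * u * y⁻¹ * u⁻¹)⁻¹ * (y * u) := by group
  rw [e, h3, inv_one, one_mul]

theorem Par.frat [Fact p.Prime] [Finite A] {N K P : Subgroup A} {e : MonoidAlgebra k A}
    (h : Par p N K P e) (hNP : K ≤ Subgroup.normalizer ((N ⊔ P : Subgroup A) : Set A)) {x : A}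
    (hx : x ∈ K) : ∃ n ∈ N, ∃ l ∈ Lp K P, x = n * l := by
  have hp : p.Prime := Fact.out
  have hPN : P ≤ Subgroup.normalizer (N : Set A) := fun u hu => h.tri.nm (h.PK hu)
  have hPH : P ≤ N ⊔ P := le_sup_right
  have hNH : N ≤ N ⊔ P := le_sup_left
  have hxH := hNP hx
  have hidx := index_eq h.PP h.tri.pp hPN
  have hP' : IsPGroup p (P.subgroupOf (N ⊔ P)) :=
    h.PP.of_equiv (Subgroup.subgroupOfEquivOfLe hPH).symm
  let S0 : Sylow p (↥(N ⊔ P)) := hP'.toSylow (by rw [hidx]; exact h.tri.pp)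
  let P2 : Subgroup A := P.map (MulAut.conj x).toMonoidHom
  have hP2 : IsPGroup p P2 := h.PP.map _
  have hxP2 : ∀ u ∈ P, x * u * x⁻¹ ∈ P2 := by
    intro u hu
    exact Subgroup.mem_map.mpr ⟨u, hu, rfl⟩
  have hP2H : P2 ≤ N ⊔ P := by
    intro a ha
    obtain ⟨u, hu, rfl⟩ := Subgroup.mem_map.mp ha
    exact nm_mem hxH (hPH hu)
  have hP2' : IsPGroup p (P2.subgroupOf (N ⊔ P)) :=
    hP2.of_equiv (Subgroup.subgroupOfEquivOfLe hP2H).symm
  obtain ⟨S, hS⟩ := hP2'.exists_le_sylow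
  obtain ⟨g, hg⟩ := MulAction.exists_smul_eq (↥(N ⊔ P)) S0 S
  obtain ⟨n, hn, q, hq, hgnq⟩ := (sup_iff hPN).mp g.2
  have hkey : ∀ u ∈ P, (g : A)⁻¹ * (x * u * x⁻¹) * g ∈ P := by
    intro u hu
    have h1 : (⟨x * u * x⁻¹, hP2H (hxP2 u hu)⟩ : ↥(N ⊔ P)) ∈ (S : Subgroup (↥(N ⊔ P))) := by
      apply hS
      rw [Subgroup.mem_subgroupOf]
      exact hxP2 u hu
    rw [← hg, Sylow.coe_subgroup_smul, Subgroup.mem_pointwise_smul_iff_inv_smul_mem] at h1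
    have h2 : g⁻¹ * (⟨x * u * x⁻¹, hP2H (hxP2 u hu)⟩ : ↥(N ⊔ P)) * g ∈
        P.subgroupOf (N ⊔ P) := by
      have h3 : (MulAut.conj g)⁻¹ • (⟨x * u * x⁻¹, hP2H (hxP2 u hu)⟩ : ↥(N ⊔ P)) =
          g⁻¹ * (⟨x * u * x⁻¹, hP2H (hxP2 u hu)⟩ : ↥(N ⊔ P)) * g := by
        rw [← map_inv, MulAut.smul_def, MulAut.conj_apply, inv_inv]
      rw [← h3]
      exact h1
    rw [Subgroup.mem_subgroupOf] at h2
    exact h2
  have hnK : n ∈ K := h.tri.le hn
  refine ⟨n, hn, n⁻¹ * x, ⟨K.mul_mem (K.inv_mem hnK) hx, ?_⟩, by group⟩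
  haveI : Finite (P : Set A) := Subtype.finite
  refine Subgroup.mem_normalizer_fintype ?_
  intro u hu
  have h1 := hkey u hu
  rw [hgnq] at h1
  have h2 := nm_mem (self_le P hq) h1
  have e : n⁻¹ * x * u * (n⁻¹ * x)⁻¹ = q * ((n * q)⁻¹ * (x * u * x⁻¹) * (n * q)) * q⁻¹ := by
    group
  show n⁻¹ * x * u * (n⁻¹ * x)⁻¹ ∈ P
  rw [e]
  exact h2

theorem Par.inf_eq [Fact p.Prime] [Finite A] {N K P : Subgroup A} {e : MonoidAlgebra k A}
    (h : Par p N K P e) {y : A} (hy : y ∈ N ⊔ Cp K P)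
    (hyP : y ∈ Subgroup.normalizer (P : Set A)) : y ∈ Cp K P := by
  obtain ⟨n, hn, c, hc, rfl⟩ := (sup_iff (C := Cp K P) (fun c (hc : c ∈ Cp K P) => h.tri.nm hc.1)).mp hy
  have hcP := cen_nm hc.2
  have h1 : n ∈ Subgroup.normalizer (P : Set A) := by
    have e : n = (n * c) * c⁻¹ := by group
    rw [e]
    exact Subgroup.mul_mem _ hyP (Subgroup.inv_mem _ hcP)
  have h2 := h.norm_inf hn h1
  exact Subgroup.mul_mem _ ⟨h.tri.le hn, h2⟩ hc

theorem Par.mem_N1 {N K P : Subgroup A} {e : MonoidAlgebra k A} (h : Par p N K P e) {y : A} :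
    y ∈ N ⊔ Cp K P ↔ ∃ n ∈ N, ∃ c ∈ Cp K P, y = n * c := by
  exact sup_iff (C := Cp K P) (fun c (hc : c ∈ Cp K P) => h.tri.nm hc.1)

theorem norm_Cp (K P : Subgroup A) :
    Lp K P ≤ Subgroup.normalizer ((Cp K P : Subgroup A) : Set A) := by
  have key : ∀ l ∈ Lp K P, ∀ c ∈ Cp K P, l * c * l⁻¹ ∈ Cp K P := by
    intro l hl c hc
    refine ⟨K.mul_mem (K.mul_mem hl.1 hc.1) (K.inv_mem hl.1), ?_⟩
    have hc2 := cen_iff.mp hc.2
    refine cen_iff.mpr ?_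
    intro u hu
    have h1 := hc2 _ (nm_mem' hl.2 hu)
    calc u * (l * c * l⁻¹) = l * ((l⁻¹ * u * l) * c) * l⁻¹ := by group
      _ = l * (c * (l⁻¹ * u * l)) * l⁻¹ := by rw [h1]
      _ = l * c * l⁻¹ * u := by group
  intro l hl
  refine nm_of (key l hl) ?_
  intro m hm
  have h1 := key l⁻¹ (Subgroup.inv_mem _ hl) m hm
  rwa [inv_inv] at h1

theorem Par.norm_N1 [Fact p.Prime] [Finite A] {N K P : Subgroup A} {e : MonoidAlgebra k A}
    (h : Par p N K P e) (hNP : K ≤ Subgroup.normalizer ((N ⊔ P : Subgroup A) : Set A)) :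
    K ≤ Subgroup.normalizer ((N ⊔ Cp K P : Subgroup A) : Set A) := by
  intro y hy
  obtain ⟨n, hn, l, hl, rfl⟩ := h.frat hNP hy
  refine Subgroup.mul_mem _ (self_le _ ((le_sup_left : N ≤ N ⊔ Cp K P) hn)) ?_
  exact nm_sup (h.tri.nm hl.1) (norm_Cp K P hl)

end Pool.Agent.Lib.P0c8ca5.Bq
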