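import Mathlib
import Pool.Agent.Lib.P0c8ca5Q.Gq

/-!
# Module DecA: restriction to the cosets

PROOF of `resS_mul_cos`.  `b` is supported in `M`: `(b * a).coeff z = ∑ m, b.coeff m * a.coeff (m⁻¹ z)` and `m⁻¹ z ∈ M x` iff
`z ∈ M x` for `m ∈ M`.
PROOF of `dec_mem`.  Support: clear.  Invariance: for `y ∈ K` with `y x y⁻¹ x⁻¹ ∈ M` the coset `M x` is stable under conjugation
by `y` and `y⁻¹` (`conj_cos`), so `(resS _ a).coeff (y z y⁻¹) = (resS _ a).coeff z`.  `pr`: `pr_mem_cos` (`x` is p-regular modulo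
`M`), `z ∈ K` for `z ∈ M x`.  `b * resS _ a = resS _ (b * a) = resS _ a`.
PROOF of `dec_inj`.  Let `z ∈ K`.  `a.coeff z = a.coeff (pr p z)` and `pr p z` is p-regular modulo `M` (`preg_pr`, `prm_of_preg`); by
`hX.ex` some `y (pr p z) y⁻¹` is in `M x`, `x ∈ X`, and `a.coeff` of it is `0`; it equals `a.coeff (pr p z)`.
-/

namespace Pool.Agent.Lib.P0c8ca5.Bq

open MonoidAlgebra Ps

variable {p : ℕ} {k : Type*} [Field k] {A : Type*} [Group A]

theorem resS_mul_cos [Fintype A] {M : Subgroup A} {b : MonoidAlgebra k A} (hb : SuppIn M b)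
    (a : MonoidAlgebra k A) (x : A) : resS (cos M x) (b * a) = b * resS (cos M x) a := by
  ext z
  rw [coeff_mul_fin]
  by_cases hz : z ∈ cos M x
  · rw [coeff_resS_of_mem _ hz, coeff_mul_fin]
    refine Finset.sum_congr rfl fun y _ => ?_
    by_cases hy : b.coeff y = 0
    · rw [hy, zero_mul, zero_mul]
    · have hyz : y⁻¹ * z ∈ cos M x := by
        rw [mem_cos, mul_assoc]
        exact M.mul_mem (M.inv_mem (hb y hy)) hz
      rw [coeff_resS_of_mem _ hyz]
  · rw [coeff_resS_of_notMem _ hz]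
    symm
    refine Finset.sum_eq_zero fun y _ => ?_
    by_cases hy : b.coeff y = 0
    · rw [hy, zero_mul]
    · have hyz : y⁻¹ * z ∉ cos M x := by
        intro h
        apply hz
        rw [mem_cos, mul_assoc] at h
        have h1 := M.mul_mem (hb y hy) h
        rwa [mul_inv_cancel_left] at h1
      rw [coeff_resS_of_notMem _ hyz, mul_zero]

theorem dec_mem [Fact p.Prime] [Fintype A] {K M : Subgroup A} (hMK : M ≤ K)
    (hn : K ≤ Subgroup.normalizer (M : Set A)) {b : MonoidAlgebra k A} (hb : SuppIn M b)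
    {a : MonoidAlgebra k A} (ha : a ∈ Rs p K b) {x : A} (hx : x ∈ K) (hxr : Prm p M x) :
    resS (cos M x) a ∈ Fs p K M b x := by
  rw [mem_Rs] at ha
  obtain ⟨_, h2, h3, h4⟩ := ha
  rw [mem_Fs]
  refine ⟨fun z hz => ?_, fun y hy hyx z => ?_, fun z hz => ?_, ?_⟩
  · by_contra h
    exact hz (coeff_resS_of_notMem a (fun h' => h h'))
  · by_cases hz : z ∈ cos M x
    · have h5 : y * z * y⁻¹ ∈ cos M x := conj_cos hn hy hyx hz
      rw [coeff_resS_of_mem _ hz, coeff_resS_of_mem _ h5, h2 y hy z]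
    · have h5 : y * z * y⁻¹ ∉ cos M x := by
        intro h
        apply hz
        have hyi : y⁻¹ ∈ K := K.inv_mem hy
        have h6 : y⁻¹ * x * y⁻¹⁻¹ * x⁻¹ ∈ M := by
          have h7 : y⁻¹ * (y * x * y⁻¹ * x⁻¹) * y⁻¹⁻¹ ∈ M :=
            (Subgroup.mem_normalizer_iff.1 (hn hyi) _).1 hyx
          have h8 := M.inv_mem h7
          have e : (y⁻¹ * (y * x * y⁻¹ * x⁻¹) * y⁻¹⁻¹)⁻¹ = y⁻¹ * x * y⁻¹⁻¹ * x⁻¹ := by group
          rwa [e] at h8
        have h7 := conj_cos hn hyi h6 h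
        have e : y⁻¹ * (y * z * y⁻¹) * y⁻¹⁻¹ * x⁻¹ = z * x⁻¹ := by group
        rw [e] at h7
        exact h7
      rw [coeff_resS_of_notMem _ hz, coeff_resS_of_notMem _ h5]
  · have h5 : pr p z ∈ cos M x := pr_mem_cos hn hx hxr hz
    have hz' : z ∈ cos M x := hz
    have hzK : z ∈ K := by
      have h6 := K.mul_mem (hMK hz) hx
      rwa [inv_mul_cancel_right] at h6
    rw [coeff_resS_of_mem _ hz', coeff_resS_of_mem _ h5, h3 z hzK]
  · rw [← resS_mul_cos hb, h4]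

theorem dec_inj [Fact p.Prime] [Fintype A] {K M : Subgroup A} {b : MonoidAlgebra k A}
    {X : Finset A} (hX : CReps p K M X) {a : MonoidAlgebra k A} (ha : a ∈ Rs p K b)
    (h0 : ∀ x ∈ X, resS (cos M x) a = 0) : a = 0 := by
  rw [mem_Rs] at ha
  obtain ⟨h1, h2, h3, _⟩ := ha
  ext z
  rw [coeff_zero, Finsupp.zero_apply]
  by_cases hz : z ∈ K
  · obtain ⟨x, hx, y, hy, hyx⟩ := hX.ex (pr p z) (pr_mem hz) (prm_of_preg (preg_pr z))
    have h5 : y * pr p z * y⁻¹ ∈ cos M x := hyx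
    rw [← h3 z hz, ← h2 y hy (pr p z), ← coeff_resS_of_mem a h5, h0 x hx, coeff_zero,
      Finsupp.zero_apply]
  · by_contra h
    exact hz (h1 z h)

end Pool.Agent.Lib.P0c8ca5.Bq
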