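import Mathlib
import Pool.Agent.Lib.P0c8ca5Q.UnC
import Pool.Agent.Lib.P0c8ca5Q.DecA

/-!
# Module SecI: the condition `a(z) = a(pr z)` in terms of the lines

PROOF of `res_mem_Ln`.  `a` is `N`-invariant and supported on `M x`; the part on the coset `N y` (`y ∈ K`) is `N`-invariant
(`n (n' y) n⁻¹ = n n' (y n⁻¹ y⁻¹) y ∈ N y`), and `e * resS (cos N y) a = resS (cos N y) (e * a)` because `e` is supported on `N`
(`resS_mul_cos` in DecA).
PROOF of `sec_iff`, from left to right.  Let `z ∈ M`, `w ∈ M x` etc., `v`; `z, w ∈ K`.  The parts `a₁ = resS (cos N (z * w)) a` and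
`v * resS (cos N w) a` are in the line of `z * w` (`res_mem_Ln`, `Ln_mul`).  Let `u = lu N e w`: `resS (cos N w) a = c • u`
(`ln_line`), `v * u ≠ 0` (both factors are invertible) is in the line of `z w`, so `a₁ = d • (v * u)`.  Choose `y` with
`(v * u).coeff y ≠ 0`; `y (z w)⁻¹ ∈ N`.  Put `w' = pr p y`, `z' = y * (pr p y)⁻¹`; `z' w' = w' z' = y`, `z' ^ p ^ m = 1`
(`exists_pow_mul_inv_pr`), `w' w⁻¹ ∈ N` and `z' z⁻¹ ∈ N` (`pr_pair`).  So `u ∈ Ln N e w'` and `Un p N e z' v` (`Ln_congr`, `Un.congr`), and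
`un_coeff` gives `(v * u).coeff y = u.coeff w'`.  The hypothesis for `y` (it is in `M x`: `y (z w)⁻¹ ∈ N`, `z w x⁻¹ ∈ M`):
`a.coeff w' = a.coeff y`, `a.coeff w' = (resS (cos N w) a).coeff w' = c * u.coeff w'`, `a.coeff y = a₁.coeff y =
d * (v * u).coeff y = d * u.coeff w'`, and `u.coeff w' ≠ 0`; so `c = d`.
From right to left.  Let `y ∈ M x`; `w = pr p y`, `z = y * (pr p y)⁻¹`: `w x⁻¹ ∈ M` (`pr_mem_cos`), so `z ∈ M`; `z ^ p ^ n = 1 ∈ N`,
`Prm p N w` (`preg_pr`, `prm_of_preg`), `[z, w] = 1`.  `exists_un` gives `v`; by `Dl` `resS (cos N (z * w)) a = v * resS (cos N w) a`, and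
`un_coeff` (`resS (cos N w) a ∈ Ln N e w`) gives `a.coeff y = (v * resS (cos N w) a).coeff (z * w) = (resS (cos N w) a).coeff w =
a.coeff (pr p y)`.
-/

namespace Pool.Agent.Lib.P0c8ca5.Bq

open MonoidAlgebra Ps

variable {p : ℕ} {k : Type*} [Field k] {A : Type*} [Group A] {N K : Subgroup A}
  {e : MonoidAlgebra k A}

theorem res_mem_Ln [Fintype A] (h : Tri p N K e) {a : MonoidAlgebra k A} (ha : InvBy N a)
    (hea : e * a = a) {y : A} (hy : y ∈ K) : resS (cos N y) a ∈ Ln N e y := by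
  refine mem_Ln.2 ⟨fun z hz => ?_, fun n hn z => ?_, ?_⟩
  · by_contra h1
    exact hz (coeff_resS_of_notMem _ (fun h2 => h1 (mem_cos.1 h2)))
  · have h1 : n * z * n⁻¹ ∈ cos N y ↔ z ∈ cos N y := by
      rw [mem_cos, mem_cos]
      have h2 : y * n⁻¹ * y⁻¹ ∈ N :=
        (Subgroup.mem_normalizer_iff.1 (h.nm hy) _).1 (N.inv_mem hn)
      have e1 : n * z * n⁻¹ * y⁻¹ = n * (z * y⁻¹) * (y * n⁻¹ * y⁻¹) := by group
      constructor
      · intro h3
        rw [e1] at h3
        have h4 := N.mul_mem (N.mul_mem (N.inv_mem hn) h3) (N.inv_mem h2)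
        have e2 : n⁻¹ * (n * (z * y⁻¹) * (y * n⁻¹ * y⁻¹)) * (y * n⁻¹ * y⁻¹)⁻¹ = z * y⁻¹ := by
          group
        rwa [e2] at h4
      · intro h3
        rw [e1]
        exact N.mul_mem (N.mul_mem hn h3) h2
    by_cases hz : z ∈ cos N y
    · rw [coeff_resS_of_mem _ hz, coeff_resS_of_mem _ (h1.2 hz), ha n hn]
    · rw [coeff_resS_of_notMem _ hz, coeff_resS_of_notMem _ (fun h2 => hz (h1.1 h2))]
  · rw [← resS_mul_cos (M := N) (fun z hz => h.blk.suppIn z hz) a y, hea]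

theorem sec_iff [Fact p.Prime] [CharP k p] [IsAlgClosed k] [Fintype A] (h : Tri p N K e)
    {M : Subgroup A} (hNM : N ≤ M) (hMK : M ≤ K) (hn : K ≤ Subgroup.normalizer (M : Set A))
    {x : A} (hx : x ∈ K) (hxr : Prm p M x) {a : MonoidAlgebra k A} (ha : a ∈ Tc N M e x) :
    (∀ z, z * x⁻¹ ∈ M → a.coeff (pr p z) = a.coeff z) ↔ Dl p N M e x a := by
  obtain ⟨_, ha2, ha3⟩ := mem_Tc.1 ha
  constructor
  · intro H z hz w hw hzp hwp hzw v hv
    have hzK : z ∈ K := hMK hz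
    have hwK : w ∈ K := by
      have h1 := K.mul_mem (hMK hw) hx
      rwa [inv_mul_cancel_right] at h1
    have hzwK : z * w ∈ K := K.mul_mem hzK hwK
    have h1 := res_mem_Ln h ha2 ha3 hzwK
    have h2 := res_mem_Ln h ha2 ha3 hwK
    have hu := lu_mem h hwK
    have hun := CmAux.lu_ne h hwK
    obtain ⟨c, hc⟩ := ln_line h hwK hu hun h2
    have hvu := Ln_mul h hzK hv.1 hu
    have hvun : v * lu N e w ≠ 0 := by
      intro h0
      have h3 : v * lu N e w * lv N e w = v := by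
        rw [mul_assoc, lu_mul_lv h hwK, Ln_mul_e h hzK hv.1]
      rw [h0, zero_mul] at h3
      exact Un.ne_zero h hv h3.symm
    obtain ⟨d, hd⟩ := ln_line h hzwK hvu hvun h1
    obtain ⟨y, hy0⟩ : ∃ y, (v * lu N e w).coeff y ≠ 0 := by
      by_contra hcon
      apply hvun
      ext t
      by_contra h4
      exact hcon ⟨t, h4⟩
    have hy : y * (z * w)⁻¹ ∈ N := (mem_Ln.1 hvu).1 y hy0
    obtain ⟨hw', hz'⟩ := pr_pair h.nm hzK hwK hzp hwp hzw hy
    have hyK : y ∈ K := by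
      have h5 := K.mul_mem (h.le hy) hzwK
      rwa [inv_mul_cancel_right] at h5
    have hprK : pr p y ∈ K := pr_mem hyK
    have hz'K : y * (pr p y)⁻¹ ∈ K := K.mul_mem hyK (K.inv_mem hprK)
    have hcy : Commute y (pr p y) := commute_pr (Commute.refl y)
    have e1 : y * (pr p y)⁻¹ * pr p y = y := inv_mul_cancel_right _ _
    have e2 : pr p y * (y * (pr p y)⁻¹) = y := by
      rw [← mul_assoc, ← hcy.eq, mul_inv_cancel_right]
    obtain ⟨m, hm⟩ := exists_pow_mul_inv_pr (p := p) y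
    have hu' : lu N e w ∈ Ln N e (pr p y) := by
      rw [Ln_congr hw']
      exact hu
    have hv' : Un p N e (y * (pr p y)⁻¹) v := by
      refine Un.congr ?_ hv
      have h6 := N.inv_mem hz'
      have e3 : (y * (pr p y)⁻¹ * z⁻¹)⁻¹ = z * (y * (pr p y)⁻¹)⁻¹ := by group
      rwa [e3] at h6
    have h7 := un_coeff h hz'K hprK (by rw [e1, e2]) hm hv' hu'
    rw [e1] at h7
    have hyM : y * x⁻¹ ∈ M := by
      have h8 := M.mul_mem (M.mul_mem (hNM hy) hz) hw
      have e4 : y * (z * w)⁻¹ * z * (w * x⁻¹) = y * (z * w)⁻¹ * (z * w) * x⁻¹ := by group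
      rw [e4, inv_mul_cancel_right] at h8
      exact h8
    have h9 := H y hyM
    have h10 : a.coeff (pr p y) = c * (lu N e w).coeff (pr p y) := by
      have h11 := coeff_resS_of_mem a (mem_cos.2 hw')
      rw [← h11, hc, coeff_smul_apply, smul_eq_mul]
    have h12 : a.coeff y = d * (lu N e w).coeff (pr p y) := by
      have h13 := coeff_resS_of_mem a (mem_cos.2 hy)
      rw [← h13, hd, coeff_smul_apply, smul_eq_mul, h7]
    have h14 : (lu N e w).coeff (pr p y) ≠ 0 := by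
      rw [← h7]
      exact hy0
    have h15 : c = d := by
      rw [h10, h12] at h9
      exact mul_right_cancel₀ h14 h9
    rw [hd, hc, mul_smul_comm, h15]
  · intro D y hyM
    have hprM : pr p y * x⁻¹ ∈ M := pr_mem_cos hn hx hxr hyM
    have hyK : y ∈ K := by
      have h1 := K.mul_mem (hMK hyM) hx
      rwa [inv_mul_cancel_right] at h1
    have hprK : pr p y ∈ K := pr_mem hyK
    have hzM : y * (pr p y)⁻¹ ∈ M := by
      have h1 := M.mul_mem hyM (M.inv_mem hprM)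
      have e1 : y * x⁻¹ * (pr p y * x⁻¹)⁻¹ = y * (pr p y)⁻¹ := by group
      rwa [e1] at h1
    have hzK := hMK hzM
    have hcy : Commute y (pr p y) := commute_pr (Commute.refl y)
    have e1 : y * (pr p y)⁻¹ * pr p y = y := inv_mul_cancel_right _ _
    have e2 : pr p y * (y * (pr p y)⁻¹) = y := by
      rw [← mul_assoc, ← hcy.eq, mul_inv_cancel_right]
    have e3 : y * (pr p y)⁻¹ * pr p y = pr p y * (y * (pr p y)⁻¹) := by rw [e1, e2]
    obtain ⟨m, hm⟩ := exists_pow_mul_inv_pr (p := p) y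
    have hmN : (y * (pr p y)⁻¹) ^ p ^ m ∈ N := by
      rw [hm]
      exact N.one_mem
    obtain ⟨v, hv⟩ := exists_un h hzK hmN
    have hcm : y * (pr p y)⁻¹ * pr p y * (y * (pr p y)⁻¹)⁻¹ * (pr p y)⁻¹ ∈ N := by
      rw [e3, mul_inv_cancel_right, mul_inv_cancel]
      exact N.one_mem
    have h1 := D _ hzM _ hprM ⟨m, hmN⟩ (prm_of_preg (preg_pr y)) hcm v hv
    have h2 := un_coeff h hzK hprK e3 hm hv (res_mem_Ln h ha2 ha3 hprK)
    rw [← h1, e1] at h2
    have h3 := coeff_resS_of_mem (S := cos N y) a (mem_cos.2 (by rw [mul_inv_cancel]; exact N.one_mem))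
    have h4 := coeff_resS_of_mem (S := cos N (pr p y)) a
      (mem_cos.2 (by rw [mul_inv_cancel]; exact N.one_mem))
    rw [h3, h4] at h2
    exact h2.symm

end Pool.Agent.Lib.P0c8ca5.Bq
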