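import Mathlib
import Pool.Agent.Lib.P0c8ca5Q.BetA
import Pool.Agent.Lib.P0c8ca5S.Unq

/-!
# Module BrNe: the Brauer map does not kill central idempotents below `e`

PROOF.  Suppose `br P c = 0`.
(1) There is a block `b` of `K` with `b * c = b` and an irreducible `ρ : Rp k K n` with `act ρ b = 1` (see step 3 of Unq in
    P0c8ca5S: `exists_prim_le`, `exists_rep`).  So `act ρ c = 1` (`act ρ b = act ρ b * act ρ c`, `act_mul`) and `act ρ e = 1`
    (`c = e * c`).
(2) `exists_psi` (P0c8ca5S.Psi) gives `ψ`; `psi_act` (P0c8ca5S.Unq): `act ρ (ψ y) = 1` for `y ∈ P`.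
(3) For `y ∈ P` and `t` with `InvBy N t`, `t * e = t`: `cj y t = ψ y * t * ψ y⁻¹` (`ln_conj`, `ψ y * ψ y⁻¹ = ψ 1 = e`), so
    `act ρ (cj y t) = act ρ t` (`act_mul` twice; `ψ y` and `t` are supported in `K`).
(4) Fix `v` and `i` and put `f z = (act ρ (resS (cos N z) c) v) i` for `z ∈ A`.  For `y ∈ P`:
    `resS (cos N (y z y⁻¹)) c = cj y (resS (cos N z) c)` (`c` is `K`-invariant, `y` normalizes `N`), and `t = resS (cos N z) c` is
    `N`-invariant with `t * e = t` (for `z ∈ K`: `res_mem_Ln`, `Ln_mul_e`; for `z ∉ K` it is `0` because `c` is supported in `K`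
    and `N ≤ K`).  So `f (y z y⁻¹) = f z`.  `sum_conj_eq` (P0c8ca5.Basic): `∑_{z ∈ A} f z = ∑_{z ∈ C(P)} f z`.
(5) `∑_{z ∈ A} resS (cos N z) c = |N| • c` (the coefficient at `w`: the number of the `z` with `w z⁻¹ ∈ N` is `|N|`), so
    `∑_z f z = |N| * v i`.
(6) For `z ∈ C(P)` the element `u = resS (cos N z) c` is `0`: if `z ∈ K` then `u ∈ Ln N e z` and `br P u = resS (cos N' z) (br P c) = 0`
    (`br_res`), so `u = 0` (`br_ne_zero` in P0c8ca5S.Tra).  So `|N| * v i = 0` for all `v`, `i`; but `|N| ≠ 0` in `k` (`h.tri.pp`) and the space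
    is not zero (`Irr'.nontriv`).  Contradiction.
-/

namespace Pool.Agent.Lib.P0c8ca5.Bq

open MonoidAlgebra Ps

variable {p : ℕ} {k : Type*} [Field k] {A : Type*} [Group A] {N K P : Subgroup A}
  {e : MonoidAlgebra k A}

namespace BrNeAux

/-- the part of a central element on a coset outside `K` is zero -/
theorem res_zero (hNK : N ≤ K) {c : MonoidAlgebra k A} (hcK : SuppIn K c) {z : A} (hz : z ∉ K) :
    resS (cos N z) c = 0 := by
  ext w
  by_cases hw : w ∈ cos N z
  · rw [coeff_resS_of_mem _ hw]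
    by_contra h0
    apply hz
    have h1 : w ∈ K := hcK w h0
    have h2 : w * z⁻¹ ∈ K := hNK hw
    have h3 : z = (w * z⁻¹)⁻¹ * w := by group
    rw [h3]
    exact K.mul_mem (K.inv_mem h2) h1
  · rw [coeff_resS_of_notMem _ hw]
    rfl

theorem res_cj {c : MonoidAlgebra k A} {y : A} (hy : y ∈ Subgroup.normalizer (N : Set A))
    (hc : ∀ x, c.coeff (y⁻¹ * x * y) = c.coeff x) (z : A) :
    resS (cos N (y * z * y⁻¹)) c = cj y (resS (cos N z) c) := by
  ext w
  rw [coeff_cj]
  have hiff : w ∈ cos N (y * z * y⁻¹) ↔ y⁻¹ * w * y ∈ cos N z := by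
    rw [mem_cos, mem_cos, Subgroup.mem_normalizer_iff.1 hy (y⁻¹ * w * y * z⁻¹)]
    have e1 : y * (y⁻¹ * w * y * z⁻¹) * y⁻¹ = w * (y * z * y⁻¹)⁻¹ := by group
    rw [e1]
  by_cases hw : w ∈ cos N (y * z * y⁻¹)
  · rw [coeff_resS_of_mem _ hw, coeff_resS_of_mem _ (hiff.1 hw), hc]
  · rw [coeff_resS_of_notMem _ hw, coeff_resS_of_notMem _ (fun h => hw (hiff.2 h))]

theorem sum_res [Fintype A] (N : Subgroup A) (c : MonoidAlgebra k A) :
    ∑ z, resS (cos N z) c = (Nat.card N : k) • c := by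
  classical
  ext w
  rw [coeff_smul_apply]
  have h1 : (∑ z, resS (cos N z) c).coeff w = ∑ z, (resS (cos N z) c).coeff w := by
    induction (Finset.univ : Finset A) using Finset.induction_on with
    | empty => simp
    | insert a s ha ih => rw [Finset.sum_insert ha, Finset.sum_insert ha, coeff_add, Finsupp.add_apply, ih]
  rw [h1]
  have h2 : ∀ z, (resS (cos N z) c).coeff w = if w * z⁻¹ ∈ N then c.coeff w else 0 := by
    intro z
    rw [coeff_resS]
    rfl
  rw [Finset.sum_congr rfl fun z _ => h2 z, ← Finset.sum_filter, Finset.sum_const, smul_eq_mul,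
    nsmul_eq_mul]
  congr 2
  rw [Nat.card_eq_fintype_card, Fintype.card_subtype]
  refine Finset.card_bij (fun z _ => w * z⁻¹) ?_ ?_ ?_
  · intro z hz
    exact Finset.mem_filter.2 ⟨Finset.mem_univ _, (Finset.mem_filter.1 hz).2⟩
  · intro z _ z' _ hzz
    exact inv_injective (mul_left_cancel hzz)
  · intro b hb
    refine ⟨b⁻¹ * w, Finset.mem_filter.2 ⟨Finset.mem_univ _, ?_⟩, ?_⟩
    · have e1 : w * (b⁻¹ * w)⁻¹ = b := by group
      rw [e1]
      exact (Finset.mem_filter.1 hb).2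
    · group

end BrNeAux

theorem Par.br_idem_ne [Fact p.Prime] [CharP k p] [IsAlgClosed k] [Fintype A]
    (h : Par p N K P e) (hNP : K ≤ Subgroup.normalizer ((N ⊔ P : Subgroup A) : Set A))
    {c : MonoidAlgebra k A} (hc : c ∈ fixAlg k K K) (hcc : c * c = c) (hec : e * c = c)
    (hne : c ≠ 0) : br P c ≠ 0 := by
  classical
  intro hbr0
  obtain ⟨hcK, hcI⟩ := mem_fixAlg.1 hc
  let d : fixAlg k K K := ⟨c, hc⟩
  have hd0 : d ≠ 0 := fun h0 => hne (congrArg Subtype.val h0)
  have hdd : d * d = d := Subtype.ext hcc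
  obtain ⟨f, hf, hfd⟩ := exists_prim_le k hd0 hdd
  have hfb : IsBlock K f.1 := isBlock_of_primIdem hf
  have hfc : f.1 * c = f.1 := congrArg Subtype.val hfd
  obtain ⟨n, ρ, hρ, hρf⟩ := Rk.CardDZAux.exists_rep hfb
  have hρc : act ρ c = 1 := by
    have h1 := act_mul ρ (a := f.1) (b := c) hfb.suppIn
    rw [hfc, hρf, one_mul] at h1
    exact h1.symm
  have heK : SuppIn K e := h.tri.blk.suppIn.mono h.tri.le
  have hρe : act ρ e = 1 := by
    have h1 := act_mul ρ (a := e) (b := c) heK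
    rw [hec, hρc, mul_one] at h1
    exact h1.symm
  obtain ⟨ψ, h1, h2, h3⟩ := exists_psi h.tri h.PK h.PP
  have hψ : ∀ y ∈ P, act ρ (ψ y) = 1 := fun y hy =>
    psi_act h.tri h.PK h.PP hNP h1 h2 h3 hρ hρe hy
  have hcj : ∀ y ∈ P, ∀ t : MonoidAlgebra k A, InvBy N t → SuppIn K t → t * e = t →
      act ρ (cj y t) = act ρ t := by
    intro y hy t ht hts hte
    have hyi := P.inv_mem hy
    have hinv : ψ y * ψ y⁻¹ = e := by rw [← h3 y hy y⁻¹ hyi, mul_inv_cancel, h2]
    rw [← ln_conj h.tri (h.PK hy) (h1 y hy) hinv ht hte, mul_assoc,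
      act_mul ρ (Ln_supp h.tri (h.PK hy) (h1 y hy)), act_mul ρ hts, hψ y hy, hψ _ hyi, one_mul,
      mul_one]
  have hcN : InvBy N c := hcI.mono h.tri.le
  have hact0 : act ρ (0 : MonoidAlgebra k A) = 0 := WSumAux.act_zero' ρ
  have key : ∀ (v : Fin n → k) (i : Fin n), (Nat.card N : k) * v i = 0 := by
    intro v i
    have hinvf : ∀ y ∈ P, ∀ z, (act ρ (resS (cos N (y * z * y⁻¹)) c) v) i
        = (act ρ (resS (cos N z) c) v) i := by
      intro y hy z
      have hyK := h.PK hy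
      rw [BrNeAux.res_cj (h.tri.nm hyK) (fun x => by
        have := hcI y⁻¹ (K.inv_mem hyK) x
        rwa [inv_inv] at this)]
      by_cases hz : z ∈ K
      · have hL := res_mem_Ln h.tri hcN hec hz
        rw [hcj y hy _ (mem_Ln.1 hL).2.1 (Ln_supp h.tri hz hL) (Ln_mul_e h.tri hz hL)]
      · rw [BrNeAux.res_zero h.tri.le hcK hz, cj_zero]
    have hsum := sum_conj_eq h.PP (fun z => (act ρ (resS (cos N z) c) v) i) hinvf
      (Finset.univ.filter (fun x => x ∈ Subgroup.centralizer (P : Set A)))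
      (fun x => by rw [Finset.mem_filter]; exact ⟨fun hx => hx.2, fun hx => ⟨Finset.mem_univ _, hx⟩⟩)
    have hR : ∑ z ∈ Finset.univ.filter (fun x => x ∈ Subgroup.centralizer (P : Set A)),
        (act ρ (resS (cos N z) c) v) i = 0 := by
      apply Finset.sum_eq_zero
      intro z hz
      have hzC := (Finset.mem_filter.1 hz).2
      have h0 : resS (cos N z) c = 0 := by
        by_cases hzK : z ∈ K
        · by_contra hne0
          have hL := res_mem_Ln h.tri hcN hec hzK
          apply br_ne_zero h.tri h.PK h.PP hzK hzC hL hne0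
          rw [br_res hzC, hbr0, resS_zero]
        · exact BrNeAux.res_zero h.tri.le hcK hzK
      rw [h0, hact0]
      rfl
    have hLs : ∑ z, (act ρ (resS (cos N z) c) v) i = (Nat.card N : k) * v i := by
      have e1 : act ρ (∑ z, resS (cos N z) c) = ∑ z, act ρ (resS (cos N z) c) :=
        WSumAux.act_sum ρ _ _
      rw [BrNeAux.sum_res, LnBAux.act_smul', hρc] at e1
      have e2 := congrFun (LinearMap.congr_fun e1 v) i
      rw [LinearMap.sum_apply, Finset.sum_apply] at e2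
      rw [← e2]
      rfl
    rw [← hLs]
    exact hsum.trans hR
  obtain ⟨v, hv⟩ := @exists_ne _ hρ.nontriv (0 : Fin n → k)
  obtain ⟨i, hi⟩ := Function.ne_iff.1 hv
  have h4 := key v i
  rcases mul_eq_zero.1 h4 with h5 | h5
  · exact h.tri.pp ((CharP.cast_eq_zero_iff k p _).1 h5)
  · exact hi h5

end Pool.Agent.Lib.P0c8ca5.Bq
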