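import Mathlib
import Pool.Agent.Lib.P0c8ca5Q.Gq

/-!
# Module Cls: the classes of cosets in `K` and in `N_K(P)`

`N₁ = N ⊔ C_K(P)`, `L = N_K(P)`; `K = N L` (`frat`), `N₁ ∩ L = C_K(P)` (`inf_eq`).
PROOF of `prm_up`: `x ^ m ∈ Cp K P ≤ N ⊔ Cp K P`.
PROOF of `creps_up`.  `sub`: `prm_up`.  `ex`: let `z ∈ K`, `z ^ m ∈ N₁`, `p ∤ m`; `z = n l` (`frat`), `l ^ m ∈ N₁` (the coset of `N₁` is the
same, `pow_cos` for `M = N₁`, `norm_N1`) and `l` normalizes `P`, so `l ^ m ∈ Cp K P` (`inf_eq`): `hX.ex` gives `x ∈ X`,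
`y ∈ L` with `y l y⁻¹ x⁻¹ ∈ Cp K P`; `y z y⁻¹ x⁻¹ = (y n y⁻¹) (y l y⁻¹ x⁻¹) ∈ N₁`.  `uniq`: let `x, x' ∈ X`, `y ∈ K`, `y x y⁻¹ x'⁻¹ ∈ N₁`;
`y = n l`: `l x l⁻¹ x'⁻¹ ∈ N₁` (`N₁` is normal in `K` and contains `n`) and it normalizes `P`, so it is in `Cp K P`; `hX.uniq`.
-/

namespace Pool.Agent.Lib.P0c8ca5.Bq

open MonoidAlgebra Ps

variable {p : ℕ} {k : Type*} [Field k] {A : Type*} [Group A]

theorem creps_up [Fact p.Prime] [Fintype A] {N K P : Subgroup A} {e : MonoidAlgebra k A}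
    (h : Par p N K P e) (hNP : K ≤ Subgroup.normalizer ((N ⊔ P : Subgroup A) : Set A))
    {X : Finset A} (hX : CReps p (Lp K P) (Cp K P) X) : CReps p K (N ⊔ Cp K P) X := by
  have hconj : ∀ {y n : A}, y ∈ K → n ∈ N → y * n * y⁻¹ ∈ N := fun {y n} hy hn =>
    (Subgroup.mem_normalizer_iff.1 (h.tri.nm hy) n).1 hn
  refine ⟨fun x hx => ?_, fun z hz hzr => ?_, fun x hx x' hx' y hy hyx => ?_⟩
  · obtain ⟨h1, m, hm, hxm⟩ := hX.sub x hx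
    exact ⟨h1.1, m, hm, Subgroup.mem_sup_right hxm⟩
  · obtain ⟨m, hm, hzm⟩ := hzr
    obtain ⟨n, hn, l, hl, rfl⟩ := h.frat hNP hz
    have h1 : (n * l) ^ m * (l ^ m)⁻¹ ∈ N ⊔ Cp K P :=
      pow_cos (h.norm_N1 hNP) hl.1
        (by rw [mul_inv_cancel_right]; exact Subgroup.mem_sup_left hn) m
    have h2 : l ^ m ∈ N ⊔ Cp K P := by
      have h3 := mul_mem (inv_mem h1) hzm
      rwa [mul_inv_rev, inv_inv, mul_assoc, inv_mul_cancel, mul_one] at h3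
    have h3 : l ^ m ∈ Cp K P := h.inf_eq h2 (pow_mem hl.2 m)
    obtain ⟨x, hx, y, hy, hyx⟩ := hX.ex l hl ⟨m, hm, h3⟩
    refine ⟨x, hx, y, hy.1, ?_⟩
    have h4 : y * (n * l) * y⁻¹ * x⁻¹ = (y * n * y⁻¹) * (y * l * y⁻¹ * x⁻¹) := by group
    rw [h4]
    exact mul_mem (Subgroup.mem_sup_left (hconj hy.1 hn)) (Subgroup.mem_sup_right hyx)
  · obtain ⟨n, hn, l, hl, rfl⟩ := h.frat hNP hy
    have hxL := (hX.sub x hx).1
    have hxL' := (hX.sub x' hx').1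
    have h1 : l * x * l⁻¹ * x'⁻¹ =
        n⁻¹ * (n * l * x * (n * l)⁻¹ * x'⁻¹) * (x' * n * x'⁻¹) := by group
    have h2 : l * x * l⁻¹ * x'⁻¹ ∈ N ⊔ Cp K P := by
      rw [h1]
      exact mul_mem (mul_mem (Subgroup.mem_sup_left (inv_mem hn)) hyx)
        (Subgroup.mem_sup_left (hconj hxL'.1 hn))
    refine hX.uniq x hx x' hx' l hl (h.inf_eq h2 ?_)
    exact mul_mem (mul_mem (mul_mem hl.2 hxL.2) (inv_mem hl.2)) (inv_mem hxL'.2)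

end Pool.Agent.Lib.P0c8ca5.Bq
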