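import Mathlib
import Pool.Agent.Lib.P0c8ca5Q.SecI

/-!
# Module FsT: the space `Fs` in terms of `Tc`

PROOF of `mem_Fs_iff`.  From left to right: `a` is `N`-invariant (`[n, x] ∈ N ≤ M` for `n ∈ N`, second condition of `Fs`), `e * a =
e * b * a = b * a = a`; `a * e = a` (`e` is central in `kK`: `commute_of`, `a` is supported in `M x ⊆ K`).  `t = a * lv N e x`: supported
on `M x N x⁻¹ ⊆ M`, `N`-invariant (`lv_mem`), `e * t = t`; `t * lu N e x = a * e = a` (`lv_mul_lu`), `b * t = t`.  The invariance is the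
second condition of `Fs` (`coeff_cj`; use it for `y⁻¹` or note that `y⁻¹` also satisfies `y⁻¹ x y x⁻¹ ∈ M`), and `sec_iff`
(SecI) for `a ∈ Tc N M e x`.
From right to left: `a = t * lu N e x` is supported on `M N x = M x`, `N`-invariant, `e * a = a`, so in `Tc N M e x`; `sec_iff`;
`b * a = (b * t) * lu N e x = a`.
-/

namespace Pool.Agent.Lib.P0c8ca5.Bq

open MonoidAlgebra Ps

variable {p : ℕ} {k : Type*} [Field k] {A : Type*} [Group A] {N K : Subgroup A}
  {e : MonoidAlgebra k A}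

/-- the conditions on `t ∈ Tc N M e 1` for `t * lu N e x` to be in `Fs p K M b x` -/
structure Good (p : ℕ) (N K M : Subgroup A) (e b : MonoidAlgebra k A) (x : A)
    (t : MonoidAlgebra k A) : Prop where
  mem : t ∈ Tc N M e 1
  bt : b * t = t
  inv : ∀ y ∈ K, y * x * y⁻¹ * x⁻¹ ∈ M → cj y (t * lu N e x) = t * lu N e x
  dl : Dl p N M e x (t * lu N e x)

namespace FsTAux

theorem supp_K {M : Subgroup A} (hMK : M ≤ K) {x : A} (hx : x ∈ K) {a : MonoidAlgebra k A}
    (ha : ∀ z, a.coeff z ≠ 0 → z * x⁻¹ ∈ M) : SuppIn K a := by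
  intro z hz
  have h1 := K.mul_mem (hMK (ha z hz)) hx
  rwa [inv_mul_cancel_right] at h1

theorem mul_e [Fact p.Prime] [CharP k p] [IsAlgClosed k] [Fintype A] (h : Tri p N K e)
    {M : Subgroup A} (hMK : M ≤ K) {x : A} (hx : x ∈ K) {a : MonoidAlgebra k A}
    (ha : a ∈ Tc N M e x) : a * e = a := by
  obtain ⟨h1, -, h3⟩ := mem_Tc.1 ha
  rw [commute_of (supp_K hMK hx h1) h.inv, h3]

/-- the product with an element of a line -/
theorem mul_mem_Tc [Fintype A] (h : Tri p N K e) {M : Subgroup A} (hNM : N ≤ M)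
    {x y : A} (hx : x ∈ K) {a u : MonoidAlgebra k A}
    (ha : a ∈ Tc N M e x) (hu : u ∈ Ln N e y) : a * u ∈ Tc N M e (x * y) := by
  obtain ⟨h1, h2, h3⟩ := mem_Tc.1 ha
  obtain ⟨h1', h2', h3'⟩ := mem_Ln.1 hu
  refine mem_Tc.2 ⟨fun z hz => ?_, InvBy.mul' h2 h2', by rw [← mul_assoc, h3]⟩
  rw [coeff_mul_apply_left] at hz
  obtain ⟨w, _, hw⟩ := Finset.exists_ne_zero_of_sum_ne_zero hz
  have e1 := h1 w (left_ne_zero_of_mul hw)
  have e2 := h1' _ (right_ne_zero_of_mul hw)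
  have e3 := (Subgroup.mem_normalizer_iff.1 (h.nm hx) _).1 e2
  have e4 := M.mul_mem e1 (hNM e3)
  have e5 : w * x⁻¹ * (x * (w⁻¹ * z * y⁻¹) * x⁻¹) = z * (x * y)⁻¹ := by group
  rwa [e5] at e4

theorem mem_Tc_of_Fs [Fintype A] (h : Tri p N K e)
    {M : Subgroup A} (hNM : N ≤ M)
    {b : MonoidAlgebra k A} (heb : e * b = b) {x : A} (hx : x ∈ K)
    {a : MonoidAlgebra k A} (ha : a ∈ Fs p K M b x) : a ∈ Tc N M e x := by
  obtain ⟨h1, h2, h3, h4⟩ := mem_Fs.1 ha
  refine mem_Tc.2 ⟨h1, fun n hn z => ?_, ?_⟩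
  · apply h2 n (h.le hn)
    have e1 := (Subgroup.mem_normalizer_iff.1 (h.nm hx) _).1 (N.inv_mem hn)
    have e2 := N.mul_mem hn e1
    have e3 : n * (x * n⁻¹ * x⁻¹) = n * x * n⁻¹ * x⁻¹ := by group
    rw [e3] at e2
    exact hNM e2
  · calc e * a = e * b * a := by rw [mul_assoc, h4]
      _ = a := by rw [heb, h4]

end FsTAux

open FsTAux

theorem mem_Fs_iff [Fact p.Prime] [CharP k p] [IsAlgClosed k] [Fintype A] (h : Tri p N K e)
    {M : Subgroup A} (hNM : N ≤ M) (hMK : M ≤ K) (hn : K ≤ Subgroup.normalizer (M : Set A))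
    {b : MonoidAlgebra k A} (heb : e * b = b) {x : A} (hx : x ∈ K) (hxr : Prm p M x)
    {a : MonoidAlgebra k A} :
    a ∈ Fs p K M b x ↔ ∃ t, Good p N K M e b x t ∧ a = t * lu N e x := by
  constructor
  · intro ha
    have hT := mem_Tc_of_Fs h hNM heb hx ha
    obtain ⟨h1, h2, h3, h4⟩ := mem_Fs.1 ha
    have e1 : a * lv N e x * lu N e x = a := by
      rw [mul_assoc, lv_mul_lu h hx, mul_e h hMK hx hT]
    have hmem : a * lv N e x ∈ Tc N M e 1 := by
      have h5 := mul_mem_Tc h hNM hx hT (lv_mem h hx)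
      rwa [mul_inv_cancel] at h5
    refine ⟨a * lv N e x, ⟨hmem, by rw [← mul_assoc, h4], fun y hy hyx => ?_, ?_⟩, e1.symm⟩
    · rw [e1]
      ext z
      rw [coeff_cj]
      have e2 := h2 y hy hyx (y⁻¹ * z * y)
      have e3 : y * (y⁻¹ * z * y) * y⁻¹ = z := by group
      rw [e3] at e2
      exact e2.symm
    · rw [e1]
      exact (sec_iff h hNM hMK hn hx hxr hT).1 h3
  · rintro ⟨t, ht, rfl⟩
    have hT : t * lu N e x ∈ Tc N M e x := by
      have h5 := mul_mem_Tc h hNM K.one_mem ht.mem (lu_mem h hx)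
      rwa [one_mul] at h5
    refine mem_Fs.2 ⟨(mem_Tc.1 hT).1, fun y hy hyx z => ?_,
      (sec_iff h hNM hMK hn hx hxr hT).2 ht.dl, by rw [← mul_assoc, ht.bt]⟩
    have e1 := congrArg (fun b : MonoidAlgebra k A => b.coeff (y * z * y⁻¹)) (ht.inv y hy hyx)
    simp only [coeff_cj] at e1
    have e2 : y⁻¹ * (y * z * y⁻¹) * y = z := by group
    rw [e2] at e1
    exact e1.symm

theorem mul_lu_inj [Fact p.Prime] [CharP k p] [IsAlgClosed k] [Fintype A] (h : Tri p N K e)
    {M : Subgroup A} (hMK : M ≤ K) {x : A} (hx : x ∈ K) {t t' : MonoidAlgebra k A}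
    (ht : t ∈ Tc N M e 1) (ht' : t' ∈ Tc N M e 1) (he : t * lu N e x = t' * lu N e x) :
    t = t' := by
  calc t = t * e := (mul_e h hMK K.one_mem ht).symm
    _ = t * lu N e x * lv N e x := by rw [mul_assoc, lu_mul_lv h hx]
    _ = t' * lu N e x * lv N e x := by rw [he]
    _ = t' * e := by rw [mul_assoc, lu_mul_lv h hx]
    _ = t' := mul_e h hMK K.one_mem ht'

/-- the space of the good elements -/
theorem exists_good_submodule [Fact p.Prime] [CharP k p] [IsAlgClosed k] [Fintype A]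
    (h : Tri p N K e) {M : Subgroup A} (hNM : N ≤ M) (hMK : M ≤ K)
    (hn : K ≤ Subgroup.normalizer (M : Set A)) {b : MonoidAlgebra k A} (heb : e * b = b)
    {x : A} (hx : x ∈ K) (hxr : Prm p M x) :
    ∃ W : Submodule k (MonoidAlgebra k A), (∀ t, t ∈ W ↔ Good p N K M e b x t) ∧
      Module.finrank k W = Module.finrank k ↥(Fs p K M b x) := by
  have hback : ∀ t, Good p N K M e b x t → t * lu N e x * lv N e x = t := by
    intro t ht
    rw [mul_assoc, lu_mul_lv h hx, mul_e h hMK K.one_mem ht.mem]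
  refine ⟨(Fs p K M b x).map (LinearMap.mulRight k (lv N e x)), fun t => ?_, ?_⟩
  · rw [Submodule.mem_map]
    constructor
    · rintro ⟨a, ha, rfl⟩
      obtain ⟨t, ht, rfl⟩ := (mem_Fs_iff h hNM hMK hn heb hx hxr).1 ha
      rw [LinearMap.mulRight_apply, hback t ht]
      exact ht
    · intro ht
      refine ⟨t * lu N e x, (mem_Fs_iff h hNM hMK hn heb hx hxr).2 ⟨t, ht, rfl⟩, ?_⟩
      rw [LinearMap.mulRight_apply, hback t ht]
  · rw [← LinearMap.range_domRestrict]
    apply LinearMap.finrank_range_of_inj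
    intro a a' haa
    apply Subtype.ext
    have hT := mem_Tc_of_Fs h hNM heb hx a.2
    have hT' := mem_Tc_of_Fs h hNM heb hx a'.2
    have h1 : (a : MonoidAlgebra k A) * lv N e x = a' * lv N e x := haa
    calc (a : MonoidAlgebra k A) = a * e := (mul_e h hMK hx hT).symm
      _ = a * lv N e x * lu N e x := by rw [mul_assoc, lv_mul_lu h hx]
      _ = a' * lv N e x * lu N e x := by rw [h1]
      _ = a' * e := by rw [mul_assoc, lv_mul_lu h hx]
      _ = a' := mul_e h hMK hx hT'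

end Pool.Agent.Lib.P0c8ca5.Bq
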