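import Mathlib
import Pool.Agent.Lib.P0c8ca5Q.BetA
import Pool.Agent.Lib.P0c8ca5Q.Kap

/-!
# Module IsoA: comparison of the invariance conditions

`L = Lp K P`, `C = Cp K P`, `N₁ = N ⊔ C`, `N' = N ⊓ C(P)`, `e' = br P e`; `tri_br`: the triple `(N', L, e')`.

PROOF.  For a triple and `y`, `x` in it: `cj y (t * lu x) = cj y t * cm y x * lu x` (`cm y x * lu x = cj y (lu x) * lv x * lu x =
cj y (lu x) * e = cj y (lu x)`; `lv_mul_lu`, `Ln_mul_e`, `Ln_cj`).  Cancel `lu x` (multiply by `lv x`; `a * e = a` for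
`N`-invariant `a` in `kK` with `e * a = a`): `cj y (t * lu x) = t * lu x` iff `cj y t * cm y x = t`.
(a) For `y ∈ L` with `[y, x] ∈ C`: `cm N e y x ∈ Ln N e [y, x] ⊆ Tc N N₁ e 1` and `cj y t ∈ Tc N N₁ e 1`, so by `br_inj` (for the
    difference) `cj y t * cm N e y x = t` iff `br P` of both sides agree, that is `cj y (br P t) * cm N' e' y x = br P t`
    (`br_mul`, `br_cj`, `br_cm_all`), that is `cj y (br P t * lu N' e' x) = br P t * lu N' e' x`.  (`[y, x] ∈ C` gives `[y, x] ∈ C(P)`.)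
(b) For `y ∈ K` with `[y, x] ∈ N₁`: `y = n l`, `n ∈ N`, `l ∈ L` (`frat`); `[y, x] = n (l x l⁻¹ x⁻¹) (x n⁻¹ x⁻¹)`, so `[l, x] ∈ N₁`, and it
    normalizes `P`, so `[l, x] ∈ C` (`inf_eq`).  `t * lu N e x` is `N`-invariant (`t` and `lu N e x` are), so
    `cj (n l) (t * lu N e x) = t * lu N e x` iff `cj l (t * lu N e x) = t * lu N e x` (`cj_cj`).
-/

namespace Pool.Agent.Lib.P0c8ca5.Bq

open MonoidAlgebra Ps

variable {p : ℕ} {k : Type*} [Field k] {A : Type*} [Group A] {N K P : Subgroup A}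
  {e : MonoidAlgebra k A}

namespace IsoAAux

theorem cj_iff [Fact p.Prime] [CharP k p] [IsAlgClosed k] [Fintype A] (h : Tri p N K e)
    {x y : A} (hx : x ∈ K) (hy : y ∈ K) {t : MonoidAlgebra k A} (ht : t * e = t) :
    cj y (t * lu N e x) = t * lu N e x ↔ cj y t * cm N e y x = t := by
  have hyx : y * x * y⁻¹ ∈ K := K.mul_mem (K.mul_mem hy hx) (K.inv_mem hy)
  have hc : y * x * y⁻¹ * x⁻¹ ∈ K := K.mul_mem hyx (K.inv_mem hx)
  have h1 : cm N e y x * lu N e x = cj y (lu N e x) := by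
    rw [cm, mul_assoc, lv_mul_lu h hx]
    exact Ln_mul_e h hyx (Ln_cj h hy (lu_mem h hx))
  have h2 : cj y (t * lu N e x) = cj y t * cm N e y x * lu N e x := by
    rw [cj_mul, mul_assoc, h1]
  have h3 : cm N e y x * e = cm N e y x := Ln_mul_e h hc (cm_mem h hy hx)
  rw [h2]
  constructor
  · intro h4
    have h5 := congrArg (fun z => z * lv N e x) h4
    simp only [mul_assoc] at h5
    rw [lu_mul_lv h hx, h3, ht] at h5
    exact h5
  · intro h4
    rw [h4]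

theorem tc_mul_e [Fintype A] (h : Tri p N K e) {X : Subgroup A} (hX : X ≤ K)
    {t : MonoidAlgebra k A} (ht : t ∈ Tc N X e 1) : t * e = t := by
  obtain ⟨h1, h2, h3⟩ := mem_Tc.1 ht
  have hs : SuppIn K t := by
    intro z hz
    have := h1 z hz
    rw [inv_one, mul_one] at this
    exact hX this
  rw [commute_of hs h.inv]
  exact h3

theorem cent_le (P : Subgroup A) :
    Subgroup.centralizer (P : Set A) ≤ Subgroup.normalizer (P : Set A) :=
  Subgroup.centralizer_le_normalizer _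

theorem br_sub (P : Subgroup A) (a b : MonoidAlgebra k A) : br P (a - b) = br P a - br P b := by
  have h1 : br P (a - b) + br P b = br P a := by
    unfold br
    rw [← resS_add, sub_add_cancel]
  rw [← h1, add_sub_cancel_right]

theorem eq_iff [Fact p.Prime] [CharP k p] [IsAlgClosed k] [Fintype A]
    (h : Par p N K P e) (hNP : K ≤ Subgroup.normalizer ((N ⊔ P : Subgroup A) : Set A))
    {x : A} (hx : x ∈ Lp K P) (hxr : Prm p (Cp K P) x) {t : MonoidAlgebra k A}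
    (ht : t ∈ Tc N (N ⊔ Cp K P) e 1) {y : A} (hy : y ∈ Lp K P)
    (hyx : y * x * y⁻¹ * x⁻¹ ∈ Cp K P) :
    cj y (t * lu N e x) = t * lu N e x ↔
        cj y (br P t * lu (N ⊓ Subgroup.centralizer (P : Set A)) (br P e) x)
          = br P t * lu (N ⊓ Subgroup.centralizer (P : Set A)) (br P e) x := by
  have h' := tri_br h.tri h.PK h.PP
  have hCL : Cp K P ≤ Lp K P := inf_le_inf_left K (cent_le P)
  have hN1 : N ⊔ Cp K P ≤ K := sup_le h.tri.le inf_le_left
  have ht1 : t * e = t := tc_mul_e h.tri hN1 ht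
  have ht2 : br P t * br P e = br P t := tc_mul_e h' hCL (h.br_mem ht)
  rw [cj_iff h.tri hx.1 hy.1 ht1, cj_iff h' hx hy ht2]
  have hcm : cm N e y x ∈ Tc N (N ⊔ Cp K P) e 1 := by
    obtain ⟨h1, h2, h3⟩ := mem_Ln.1 (cm_mem h.tri hy.1 hx.1)
    refine mem_Tc.2 ⟨fun z hz => ?_, h2, h3⟩
    have h4 := h1 z hz
    rw [inv_one, mul_one]
    have e1 : z = (z * (y * x * y⁻¹ * x⁻¹)⁻¹) * (y * x * y⁻¹ * x⁻¹) := by group
    rw [e1]
    exact Subgroup.mul_mem _ (Subgroup.mem_sup_left h4) (Subgroup.mem_sup_right hyx)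
  have hcj : cj y t ∈ Tc N (N ⊔ Cp K P) e 1 := by
    obtain ⟨h1, h2, h3⟩ := mem_Tc.1 ht
    refine mem_Tc.2 ⟨fun z hz => ?_, InvBy.cj' (h.tri.nm hy.1) h2, ?_⟩
    · rw [coeff_cj] at hz
      have h4 := h1 _ hz
      rw [inv_one, mul_one] at h4 ⊢
      have h5 := (Subgroup.mem_normalizer_iff.1 (h.norm_N1 hNP hy.1) _).1 h4
      have e1 : y * (y⁻¹ * z * y) * y⁻¹ = z := by group
      rwa [e1] at h5
    · have h4 : cj y e = e := (invBy_iff_cj.1 h.tri.inv) y hy.1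
      conv_lhs => rw [← h4]
      rw [← cj_mul, h3]
  have hm := tc_mul h.tri hcj hcm
  have hbr : br P (cj y t * cm N e y x)
      = cj y (br P t) * cm (N ⊓ Subgroup.centralizer (P : Set A)) (br P e) y x := by
    rw [h.br_mul hcj hcm, br_cj hy.2, h.br_cm_all hy hx hxr hyx.2]
  rw [← hbr]
  constructor
  · intro h1
    rw [h1]
  · intro h1
    have h2 : br P (cj y t * cm N e y x - t) = 0 := by
      rw [br_sub, h1, sub_self]
    have h3 := h.br_inj (Submodule.sub_mem _ hm ht) h2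
    exact sub_eq_zero.1 h3

end IsoAAux

open IsoAAux

theorem Par.inv_iff [Fact p.Prime] [CharP k p] [IsAlgClosed k] [Fintype A]
    (h : Par p N K P e) (hNP : K ≤ Subgroup.normalizer ((N ⊔ P : Subgroup A) : Set A))
    {x : A} (hx : x ∈ Lp K P) (hxr : Prm p (Cp K P) x) {t : MonoidAlgebra k A}
    (ht : t ∈ Tc N (N ⊔ Cp K P) e 1) :
    (∀ y ∈ K, y * x * y⁻¹ * x⁻¹ ∈ N ⊔ Cp K P → cj y (t * lu N e x) = t * lu N e x) ↔
      (∀ y ∈ Lp K P, y * x * y⁻¹ * x⁻¹ ∈ Cp K P →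
        cj y (br P t * lu (N ⊓ Subgroup.centralizer (P : Set A)) (br P e) x)
          = br P t * lu (N ⊓ Subgroup.centralizer (P : Set A)) (br P e) x) := by
  constructor
  · intro h1 y hy hyx
    exact (eq_iff h hNP hx hxr ht hy hyx).1 (h1 y hy.1 (Subgroup.mem_sup_right hyx))
  · intro h1 y hy hyx
    obtain ⟨n, hn, l, hl, rfl⟩ := h.frat hNP hy
    have h2 : x * n * x⁻¹ ∈ N := (Subgroup.mem_normalizer_iff.1 (h.tri.nm hx.1) n).1 hn
    have h3 : l * x * l⁻¹ * x⁻¹ ∈ N ⊔ Cp K P := by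
      have e1 : l * x * l⁻¹ * x⁻¹
          = n⁻¹ * (n * l * x * (n * l)⁻¹ * x⁻¹) * (x * n * x⁻¹) := by group
      rw [e1]
      exact Subgroup.mul_mem _ (Subgroup.mul_mem _ (Subgroup.mem_sup_left (N.inv_mem hn)) hyx)
        (Subgroup.mem_sup_left h2)
    have h4 : l * x * l⁻¹ * x⁻¹ ∈ Subgroup.normalizer (P : Set A) :=
      Subgroup.mul_mem _ (Subgroup.mul_mem _ (Subgroup.mul_mem _ hl.2 hx.2)
        (Subgroup.inv_mem _ hl.2)) (Subgroup.inv_mem _ hx.2)
    have h5 : l * x * l⁻¹ * x⁻¹ ∈ Cp K P := h.inf_eq h3 h4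
    have h6 := (eq_iff h hNP hx hxr ht hl h5).2 (h1 l hl h5)
    have h7 : InvBy N (t * lu N e x) :=
      InvBy.mul' (mem_Tc.1 ht).2.1 (mem_Ln.1 (lu_mem h.tri hx.1)).2.1
    rw [← cj_cj, h6]
    exact invBy_iff_cj.1 h7 n hn

end Pool.Agent.Lib.P0c8ca5.Bq
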