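import Mathlib
import Pool.Agent.Lib.P0c8ca5Q.BetA

/-!
# Module IsoB: comparison of the section conditions

`L = Lp K P`, `C = Cp K P`, `N₁ = N ⊔ C`, `N' = N ⊓ C(P)`, `e' = br P e`; `tri_br`: the triple `(N', L, e')`.

PROOF of `res_mul_ln`.  `u` is supported on `N x`.  `(a * u).coeff z = ∑ y, a.coeff y * u.coeff (y⁻¹ z)`, and for `y⁻¹ z ∈ N x`: `z ∈ N w` iff
`y ∈ N w x⁻¹` (`y = z (y⁻¹ z)⁻¹`, `z = n w`, `y⁻¹ z = n' x`: `y = n w x⁻¹ n'⁻¹`, and `w x⁻¹ ∈ K` normalizes `N`).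
PROOF of `dl_iff`.  Write `u = lu N e x`, `u' = lu N' e' x`, `ρ_w = resS (cos N w)`, `ρ'_w = resS (cos N' w)`.
(*) For `z, w` with `z ∈ C`, `w x⁻¹ ∈ C` and `v ∈ Ln N e z`: `ρ_(z w) (t u) = v * ρ_w (t u)` iff `ρ'_(z w) (br P t * u') = br P v *
    ρ'_w (br P t * u')`.  By `res_mul_ln` the first says `ρ_(z w x⁻¹) t * u = v * ρ_(w x⁻¹) t * u`, cancel `u` (multiply by `lv N e x`;
    the elements satisfy `a * e = a`): `ρ_(z w x⁻¹) t = v * ρ_(w x⁻¹) t` in `Tc N N₁ e 1` (`z w x⁻¹, w x⁻¹ ∈ C`; `res_mem_Ln`,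
    `v ∈ Ln N e z ⊆ Tc N N₁ e 1`, `tc_mul`); by `br_inj` this is the same as `br P` of it, and `br P (ρ_c t) = ρ'_c (br P t)` for
    `c ∈ C` (`br_res`), `br_mul`; then multiply by `u'` and use `res_mul_ln` for the triple `(N', L, e')`.
From left to right: let `z ∈ C`, `w x⁻¹ ∈ C`, `z ^ p ^ n ∈ N'`, `Prm p N' w`, `[z, w] ∈ N'` and `Un p N' e' z v'`.  All conditions hold for
`N` and `N₁`.  Let `Un p N e z v` (`exists_un`); `br P v = v'` (`br_un`, `Un.uniq`).  (*).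
From right to left: let `z ∈ N₁`, `w x⁻¹ ∈ N₁`, `z ^ p ^ n ∈ N`, `Prm p N w`, `[z, w] ∈ N`, `Un p N e z v`.  `z = n₁ z₀`, `w x⁻¹ = n₂ c`
(`mem_N1`), `w₀ = c x`, `w = n₂ w₀`; `z₀ ∈ C`, `w₀ x⁻¹ ∈ C`, `w₀ ∈ L`.  The cosets `N z = N z₀`, `N w = N w₀`, `N z w = N z₀ w₀` agree, so
`Un p N e z₀ v` (`Un.congr`) and the restrictions are the same.  `z₀ ^ p ^ n ∈ N` (`pow_cos`), and it is in `C(P)`, so in `N'`;
`w₀ ^ m ∈ N` and it normalizes `P`, so it is in `C(P)` (`norm_inf`): `Prm p N' w₀`; `[z₀, w₀] ∈ N` normalizes `P`: in `N'`.  `br_un`.  (*).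
-/

namespace Pool.Agent.Lib.P0c8ca5.Bq

open MonoidAlgebra Ps

variable {p : ℕ} {k : Type*} [Field k] {A : Type*} [Group A] {N K P : Subgroup A}
  {e : MonoidAlgebra k A}

theorem res_mul_ln [Fintype A] (h : Tri p N K e) {x w : A} (hx : x ∈ K) (hw : w ∈ K)
    {u : MonoidAlgebra k A} (hu : u ∈ Ln N e x) (a : MonoidAlgebra k A) :
    resS (cos N w) (a * u) = resS (cos N (w * x⁻¹)) a * u := by
  classical
  ext z
  have hc : w * x⁻¹ ∈ K := K.mul_mem hw (K.inv_mem hx)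
  have key : ∀ y : A, y * x⁻¹ ∈ N → (z * y⁻¹ ∈ cos N (w * x⁻¹) ↔ z ∈ cos N w) := by
    intro y hy
    rw [mem_cos, mem_cos]
    have h1 := (Subgroup.mem_normalizer_iff.1 (h.nm hc) _).1 hy
    have h2 : z * y⁻¹ * (w * x⁻¹)⁻¹ * (w * x⁻¹ * (y * x⁻¹) * (w * x⁻¹)⁻¹) = z * w⁻¹ := by group
    constructor
    · intro h3
      rw [← h2]
      exact N.mul_mem h3 h1
    · intro h3
      rw [← h2] at h3
      exact (Subgroup.mul_mem_cancel_right _ h1).1 h3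
  rw [coeff_mul_apply_right]
  by_cases hz : z ∈ cos N w
  · rw [coeff_resS_of_mem _ hz, coeff_mul_apply_right]
    refine Finset.sum_congr rfl fun y hy => ?_
    have hy' : y * x⁻¹ ∈ N := (mem_Ln.1 hu).1 y (Finsupp.mem_support_iff.1 hy)
    simp only
    rw [coeff_resS_of_mem _ ((key y hy').2 hz)]
  · rw [coeff_resS_of_notMem _ hz]
    symm
    refine Finset.sum_eq_zero fun y hy => ?_
    have hy' : y * x⁻¹ ∈ N := (mem_Ln.1 hu).1 y (Finsupp.mem_support_iff.1 hy)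
    simp only
    rw [coeff_resS_of_notMem _ (fun h4 => hz ((key y hy').1 h4)), zero_mul]

namespace IsoBAux

theorem cos_congr {N : Subgroup A} {x y : A} (hxy : x * y⁻¹ ∈ N) : cos N x = cos N y := by
  ext z
  rw [mem_cos, mem_cos]
  have h2 : z * x⁻¹ * (x * y⁻¹) = z * y⁻¹ := by group
  constructor
  · intro h3
    rw [← h2]
    exact N.mul_mem h3 hxy
  · intro h3
    rw [← h2] at h3
    exact (Subgroup.mul_mem_cancel_right _ hxy).1 h3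

theorem resS_sub (S : Set A) (a b : MonoidAlgebra k A) :
    resS S (a - b) = resS S a - resS S b := by
  have h1 : a - b = a + (-1 : k) • b := by rw [neg_smul, one_smul, sub_eq_add_neg]
  rw [h1, resS_add, resS_smul, neg_smul, one_smul, ← sub_eq_add_neg]

/-- cancellation of `lu N e x` -/
theorem cancel [Fact p.Prime] [CharP k p] [IsAlgClosed k] [Fintype A] (h : Tri p N K e)
    {x z w : A} (hx : x ∈ K) (hz : z ∈ K) (hw : w ∈ K) {t v : MonoidAlgebra k A}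
    (ht : InvBy N t) (het : e * t = t) :
    resS (cos N (z * w)) (t * lu N e x) = v * resS (cos N w) (t * lu N e x) ↔
      resS (cos N (z * w * x⁻¹)) t = v * resS (cos N (w * x⁻¹)) t := by
  rw [res_mul_ln h hx (K.mul_mem hz hw) (lu_mem h hx), res_mul_ln h hx hw (lu_mem h hx)]
  have h1 : w * x⁻¹ ∈ K := K.mul_mem hw (K.inv_mem hx)
  have h2 : z * w * x⁻¹ ∈ K := K.mul_mem (K.mul_mem hz hw) (K.inv_mem hx)
  have m1 := Ln_mul_e h h1 (res_mem_Ln h ht het h1)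
  have m2 := Ln_mul_e h h2 (res_mem_Ln h ht het h2)
  constructor
  · intro h3
    calc resS (cos N (z * w * x⁻¹)) t
        = resS (cos N (z * w * x⁻¹)) t * (lu N e x * lv N e x) := by rw [lu_mul_lv h hx, m2]
      _ = v * (resS (cos N (w * x⁻¹)) t * (lu N e x * lv N e x)) := by
          rw [← mul_assoc, h3]; simp only [mul_assoc]
      _ = v * resS (cos N (w * x⁻¹)) t := by rw [lu_mul_lv h hx, m1]
  · intro h3
    rw [h3, mul_assoc]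

theorem ln_le_tc {N X : Subgroup A} (hNX : N ≤ X) {c : A} (hc : c ∈ X)
    {u : MonoidAlgebra k A} (hu : u ∈ Ln N e c) : u ∈ Tc N X e 1 := by
  obtain ⟨h1, h2, h3⟩ := mem_Ln.1 hu
  refine mem_Tc.2 ⟨fun z hz => ?_, h2, h3⟩
  have h4 : z * c⁻¹ * c = z * 1⁻¹ := by group
  rw [← h4]
  exact X.mul_mem (hNX (h1 z hz)) hc

/-- the main comparison -/
theorem star [Fact p.Prime] [CharP k p] [IsAlgClosed k] [Fintype A]
    (h : Par p N K P e) {x : A} (hx : x ∈ Lp K P) {t : MonoidAlgebra k A}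
    (ht : t ∈ Tc N (N ⊔ Cp K P) e 1) {z w : A} (hz : z ∈ Cp K P) (hw : w * x⁻¹ ∈ Cp K P)
    {v : MonoidAlgebra k A} (hv : v ∈ Ln N e z) :
    resS (cos N (z * w)) (t * lu N e x) = v * resS (cos N w) (t * lu N e x) ↔
      resS (cos (N ⊓ Subgroup.centralizer (P : Set A)) (z * w))
          (br P t * lu (N ⊓ Subgroup.centralizer (P : Set A)) (br P e) x) =
        br P v * resS (cos (N ⊓ Subgroup.centralizer (P : Set A)) w)
          (br P t * lu (N ⊓ Subgroup.centralizer (P : Set A)) (br P e) x) := by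
  have h' := tri_br h.tri h.PK h.PP
  have hCL : Cp K P ≤ Lp K P := inf_le_inf_left _ (Subgroup.centralizer_le_normalizer _)
  have hxK : x ∈ K := (Subgroup.mem_inf.1 hx).1
  have hzK : z ∈ K := (Subgroup.mem_inf.1 hz).1
  have hwx : w * x⁻¹ * x = w := by group
  have hwL : w ∈ Lp K P := by
    have := (Lp K P).mul_mem (hCL hw) hx
    rwa [hwx] at this
  have hwK : w ∈ K := (Subgroup.mem_inf.1 hwL).1
  have hzw : z * w * x⁻¹ ∈ Cp K P := by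
    rw [mul_assoc]
    exact (Cp K P).mul_mem hz hw
  obtain ⟨-, t2, t3⟩ := mem_Tc.1 ht
  obtain ⟨-, b2, b3⟩ := mem_Tc.1 (h.br_mem ht)
  rw [cancel h.tri hxK hzK hwK t2 t3, cancel h' hx (hCL hz) hwL b2 b3,
    ← br_res (Subgroup.mem_inf.1 hzw).2, ← br_res (Subgroup.mem_inf.1 hw).2]
  have hC1 : Cp K P ≤ N ⊔ Cp K P := le_sup_right
  have m1 := ln_le_tc (X := N ⊔ Cp K P) le_sup_left (hC1 hzw)
    (res_mem_Ln h.tri t2 t3 (Subgroup.mem_inf.1 hzw).1)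
  have m2 := ln_le_tc (X := N ⊔ Cp K P) le_sup_left (hC1 hw)
    (res_mem_Ln h.tri t2 t3 (Subgroup.mem_inf.1 hw).1)
  have m3 := ln_le_tc (X := N ⊔ Cp K P) le_sup_left (hC1 hz) hv
  rw [← h.br_mul m3 m2]
  constructor
  · intro h1
    rw [h1]
  · intro h1
    have h2 := h.br_inj (Submodule.sub_mem _ m1 (tc_mul h.tri m3 m2)) (by
      have h3 : br P (resS (cos N (z * w * x⁻¹)) t - v * resS (cos N (w * x⁻¹)) t) =
          br P (resS (cos N (z * w * x⁻¹)) t) - br P (v * resS (cos N (w * x⁻¹)) t) := by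
        unfold br
        exact resS_sub _ _ _
      rw [h3, h1, sub_self])
    exact sub_eq_zero.1 h2

end IsoBAux

open IsoBAux

theorem Par.dl_iff [Fact p.Prime] [CharP k p] [IsAlgClosed k] [Fintype A]
    (h : Par p N K P e) {x : A} (hx : x ∈ Lp K P) {t : MonoidAlgebra k A}
    (ht : t ∈ Tc N (N ⊔ Cp K P) e 1) :
    Dl p N (N ⊔ Cp K P) e x (t * lu N e x) ↔
      Dl p (N ⊓ Subgroup.centralizer (P : Set A)) (Cp K P) (br P e) x
        (br P t * lu (N ⊓ Subgroup.centralizer (P : Set A)) (br P e) x) := by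
  have h' := tri_br h.tri h.PK h.PP
  have hCL : Cp K P ≤ Lp K P := inf_le_inf_left _ (Subgroup.centralizer_le_normalizer _)
  have hC1 : Cp K P ≤ N ⊔ Cp K P := le_sup_right
  have hxK : x ∈ K := (Subgroup.mem_inf.1 hx).1
  constructor
  · intro hD z hz w hw hzn hwr hzw v' hv'
    obtain ⟨n, hn⟩ := hzn
    obtain ⟨m, hm, hwm⟩ := hwr
    have hzK : z ∈ K := (Subgroup.mem_inf.1 hz).1
    obtain ⟨v, hv⟩ := exists_un h.tri hzK (Subgroup.mem_inf.1 hn).1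
    have h1 : br P v = v' := Un.uniq h' (hCL hz) (h.br_un hz hv) hv'
    rw [← h1]
    exact (star h hx ht hz hw hv.1).1 (hD z (hC1 hz) w (hC1 hw)
      ⟨n, (Subgroup.mem_inf.1 hn).1⟩ ⟨m, hm, (Subgroup.mem_inf.1 hwm).1⟩
      (Subgroup.mem_inf.1 hzw).1 v hv)
  · intro hD z hz w hw hzn hwr hzw v hv
    obtain ⟨n, hn⟩ := hzn
    obtain ⟨m, hm, hwm⟩ := hwr
    obtain ⟨n₁, hn₁, z₀, hz₀, rfl⟩ := h.mem_N1.1 hz
    obtain ⟨n₂, hn₂, c, hc, hcw⟩ := h.mem_N1.1 hw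
    have hz₀K : z₀ ∈ K := (Subgroup.mem_inf.1 hz₀).1
    have hcK : c ∈ K := (Subgroup.mem_inf.1 hc).1
    obtain ⟨w₀, hw₀⟩ : ∃ w₀, w₀ = c * x := ⟨_, rfl⟩
    have hww : w = n₂ * w₀ := by
      have e1 : w = w * x⁻¹ * x := by group
      rw [e1, hcw, hw₀, mul_assoc]
    have hw₀L : w₀ ∈ Lp K P := by
      rw [hw₀]
      exact (Lp K P).mul_mem (hCL hc) hx
    have hw₀K : w₀ ∈ K := (Subgroup.mem_inf.1 hw₀L).1
    have hw₀x : w₀ * x⁻¹ ∈ Cp K P := by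
      have e1 : w₀ * x⁻¹ = c := by rw [hw₀]; group
      rwa [e1]
    subst hww
    -- the cosets
    have c1 : n₁ * z₀ * z₀⁻¹ ∈ N := by
      have e1 : n₁ * z₀ * z₀⁻¹ = n₁ := by group
      rwa [e1]
    have c2 : n₂ * w₀ * w₀⁻¹ ∈ N := by
      have e1 : n₂ * w₀ * w₀⁻¹ = n₂ := by group
      rwa [e1]
    have c3 : n₁ * z₀ * (n₂ * w₀) * (z₀ * w₀)⁻¹ ∈ N := by
      have e1 : n₁ * z₀ * (n₂ * w₀) * (z₀ * w₀)⁻¹ = n₁ * (z₀ * n₂ * z₀⁻¹) := by group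
      rw [e1]
      exact N.mul_mem hn₁ ((Subgroup.mem_normalizer_iff.1 (h.tri.nm hz₀K) _).1 hn₂)
    have c4 : n₂ * w₀ * (n₁ * z₀) * (w₀ * z₀)⁻¹ ∈ N := by
      have e1 : n₂ * w₀ * (n₁ * z₀) * (w₀ * z₀)⁻¹ = n₂ * (w₀ * n₁ * w₀⁻¹) := by group
      rw [e1]
      exact N.mul_mem hn₂ ((Subgroup.mem_normalizer_iff.1 (h.tri.nm hw₀K) _).1 hn₁)
    have hv₀ : Un p N e z₀ v := Un.congr c1 hv
    -- powers of `z₀`
    have z1 : z₀ ^ p ^ n ∈ N := by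
      have e1 := pow_cos h.tri.nm hz₀K c1 (p ^ n)
      have e2 : z₀ ^ p ^ n = ((n₁ * z₀) ^ p ^ n * (z₀ ^ p ^ n)⁻¹)⁻¹ * (n₁ * z₀) ^ p ^ n := by
        group
      rw [e2]
      exact N.mul_mem (N.inv_mem e1) hn
    have z2 : z₀ ^ p ^ n ∈ N ⊓ Subgroup.centralizer (P : Set A) :=
      Subgroup.mem_inf.2 ⟨z1, Subgroup.pow_mem _ (Subgroup.mem_inf.1 hz₀).2 _⟩
    -- powers of `w₀`
    have w1 : w₀ ^ m ∈ N := by
      have e1 := pow_cos h.tri.nm hw₀K c2 m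
      have e2 : w₀ ^ m = ((n₂ * w₀) ^ m * (w₀ ^ m)⁻¹)⁻¹ * (n₂ * w₀) ^ m := by group
      rw [e2]
      exact N.mul_mem (N.inv_mem e1) hwm
    have w2 : w₀ ^ m ∈ N ⊓ Subgroup.centralizer (P : Set A) :=
      Subgroup.mem_inf.2 ⟨w1, h.norm_inf w1 (Subgroup.pow_mem _ (Subgroup.mem_inf.1 hw₀L).2 _)⟩
    -- the commutator
    have k1 : z₀ * w₀ * z₀⁻¹ * w₀⁻¹ ∈ N := by
      have e2 : z₀ * w₀ * z₀⁻¹ * w₀⁻¹ = (n₁ * z₀ * (n₂ * w₀) * (z₀ * w₀)⁻¹)⁻¹ *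
          (n₁ * z₀ * (n₂ * w₀) * (n₁ * z₀)⁻¹ * (n₂ * w₀)⁻¹) *
          (n₂ * w₀ * (n₁ * z₀) * (w₀ * z₀)⁻¹) := by group
      rw [e2]
      exact N.mul_mem (N.mul_mem (N.inv_mem c3) hzw) c4
    have k2 : z₀ * w₀ * z₀⁻¹ * w₀⁻¹ ∈ N ⊓ Subgroup.centralizer (P : Set A) := by
      refine Subgroup.mem_inf.2 ⟨k1, h.norm_inf k1 ?_⟩
      have z3 := (Subgroup.mem_inf.1 (hCL hz₀)).2
      have w3 := (Subgroup.mem_inf.1 hw₀L).2
      exact Subgroup.mul_mem _ (Subgroup.mul_mem _ (Subgroup.mul_mem _ z3 w3)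
        (Subgroup.inv_mem _ z3)) (Subgroup.inv_mem _ w3)
    have hfin := (star h hx ht hz₀ hw₀x hv₀.1).2 (hD z₀ hz₀ w₀ hw₀x ⟨n, z2⟩ ⟨m, hm, w2⟩ k2 _
      (h.br_un hz₀ hv₀))
    rw [cos_congr c3, cos_congr c2]
    exact hfin

end Pool.Agent.Lib.P0c8ca5.Bq
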