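import Mathlib
import Pool.Agent.Lib.P0c8ca5Q.DecA
import Pool.Agent.Lib.P0c8ca5Q.RvB

/-!
# Module DecB: extension from the cosets

PROOF.  Define `F : A → k`: for `z ∈ K` choose (`hX.ex` for `pr p z`, which is p-regular: `preg_pr`, `prm_of_preg`) `x ∈ X`, `y ∈ K` with
`y (pr p z) y⁻¹ ∈ M x` and put `F z = (f x).coeff (y (pr p z) y⁻¹)`; `F z = 0` for `z ∉ K`.
(1) The value does not depend on the choice: `x` is unique (if `y w y⁻¹ = m x`, `y' w y'⁻¹ = m' x'` then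
    `(y' y⁻¹) x (y' y⁻¹)⁻¹ x'⁻¹ ∈ M`, `hX.uniq`); for `y, y'` put `s = y' y⁻¹`: `y' w y'⁻¹ = s (y w y⁻¹) s⁻¹`, both in `M x`, so
    `s x s⁻¹ x⁻¹ ∈ M` and the second condition of `Fs` applies.
(2) So `F` is invariant under conjugation by `K` (`pr_conj`), `F (pr p z) = F z` (`pr_pr`), and `a₀` with the coefficients `F` is in
    `Rs p K 1`.
(3) For `x ∈ X`, `z ∈ M x`: `pr p z ∈ M x` (`pr_mem_cos`), choose `y = 1`: `F z = (f x).coeff (pr p z) = (f x).coeff z` (third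
    condition of `Fs`).  So `resS (cos M x) a₀ = f x` (the support of `f x` is in `M x`).
(4) `b * a₀ ∈ Rs p K b` (`mul_mem_Rs`), so it is also in `Rs p K 1`; `d = b * a₀ - a₀ ∈ Rs p K 1` and
    `resS (cos M x) d = b * f x - f x = 0` (`resS_mul_cos`).  By `dec_inj` (for `1` in place of `b`) `d = 0`.  So `a = a₀` has
    `b * a = a`, and `a ∈ Rs p K b`.
-/

namespace Pool.Agent.Lib.P0c8ca5.Bq

open MonoidAlgebra Ps

variable {p : ℕ} {k : Type*} [Field k] {A : Type*} [Group A]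

namespace DecBAux

/-- `c` is a value of the function at `z` -/
def Vl (p : ℕ) (K M : Subgroup A) (X : Finset A) (f : A → MonoidAlgebra k A) (z : A) (c : k) :
    Prop :=
  ∃ x ∈ X, ∃ y ∈ K, y * pr p z * y⁻¹ * x⁻¹ ∈ M ∧ c = (f x).coeff (y * pr p z * y⁻¹)

theorem vl_unique {K M : Subgroup A} (hn : K ≤ Subgroup.normalizer (M : Set A))
    {b : MonoidAlgebra k A} {X : Finset A} (hX : CReps p K M X)
    {f : A → MonoidAlgebra k A} (hf : ∀ x ∈ X, f x ∈ Fs p K M b x) {z : A} {c c' : k}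
    (h : Vl p K M X f z c) (h' : Vl p K M X f z c') : c = c' := by
  obtain ⟨x, hx, y, hy, hm, hc⟩ := h
  obtain ⟨x', hx', y', hy', hm', hc'⟩ := h'
  have hs : y' * y⁻¹ ∈ K := K.mul_mem hy' (K.inv_mem hy)
  have hsm : y' * y⁻¹ * (y * pr p z * y⁻¹ * x⁻¹) * (y' * y⁻¹)⁻¹ ∈ M :=
    (Subgroup.mem_normalizer_iff.mp (hn hs) _).mp hm
  have hxx : y' * y⁻¹ * x * (y' * y⁻¹)⁻¹ * x'⁻¹ ∈ M := by
    have h1 := M.mul_mem (M.inv_mem hsm) hm'
    have e1 : (y' * y⁻¹ * (y * pr p z * y⁻¹ * x⁻¹) * (y' * y⁻¹)⁻¹)⁻¹ *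
        (y' * pr p z * y'⁻¹ * x'⁻¹) = y' * y⁻¹ * x * (y' * y⁻¹)⁻¹ * x'⁻¹ := by group
    rwa [e1] at h1
  have hxe : x = x' := hX.uniq x hx x' hx' _ hs hxx
  subst hxe
  have h2 := (mem_Fs.mp (hf x hx)).2.1 _ hs hxx (y * pr p z * y⁻¹)
  have e2 : y' * y⁻¹ * (y * pr p z * y⁻¹) * (y' * y⁻¹)⁻¹ = y' * pr p z * y'⁻¹ := by group
  rw [e2] at h2
  rw [hc, hc', h2]

end DecBAux

theorem dec_surj [Fact p.Prime] [CharP k p] [IsAlgClosed k] [Fintype A] {K M : Subgroup A}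
    (hMK : M ≤ K) (hn : K ≤ Subgroup.normalizer (M : Set A)) {b : MonoidAlgebra k A}
    (hb : SuppIn M b) (hbK : InvBy K b) (hbb : b * b = b) {X : Finset A} (hX : CReps p K M X)
    (f : A → MonoidAlgebra k A) (hf : ∀ x ∈ X, f x ∈ Fs p K M b x) :
    ∃ a ∈ Rs p K b, ∀ x ∈ X, resS (cos M x) a = f x := by
  -- existence of the values
  have hex : ∀ z ∈ K, ∃ c, DecBAux.Vl p K M X f z c := by
    intro z hz
    obtain ⟨x, hx, y, hy, h⟩ := hX.ex (pr p z) (pr_mem hz) (prm_of_preg (preg_pr z))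
    exact ⟨_, x, hx, y, hy, h, rfl⟩
  have hFex : ∀ z, ∃ c, (z ∈ K → DecBAux.Vl p K M X f z c) ∧ (z ∉ K → c = 0) := by
    intro z
    by_cases hz : z ∈ K
    · obtain ⟨c, hc⟩ := hex z hz
      exact ⟨c, fun _ => hc, fun h => absurd hz h⟩
    · exact ⟨0, fun h => absurd h hz, fun _ => rfl⟩
  choose F hF using hFex
  have huni := @DecBAux.vl_unique p k _ A _ K M hn b X hX f hf
  -- the value of `F` on a coset
  have hFx : ∀ x ∈ X, ∀ z, z * x⁻¹ ∈ M → F z = (f x).coeff z := by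
    intro x hx z hz
    have hxK : x ∈ K := (hX.sub x hx).1
    have hzK : z ∈ K := by
      have := K.mul_mem (hMK hz) hxK
      simpa using this
    refine huni ((hF z).1 hzK) ⟨x, hx, 1, K.one_mem, ?_, ?_⟩
    · rw [one_mul, inv_one, mul_one]
      exact pr_mem_cos hn hxK (hX.sub x hx).2 hz
    · rw [one_mul, inv_one, mul_one]
      exact ((mem_Fs.mp (hf x hx)).2.2.1 z hz).symm
  let a₀ : MonoidAlgebra k A := MonoidAlgebra.ofCoeff (Finsupp.equivFunOnFinite.symm F)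
  have ha₀ : ∀ z, a₀.coeff z = F z := by
    intro z
    show (MonoidAlgebra.ofCoeff (Finsupp.equivFunOnFinite.symm F)).coeff z = F z
    rw [coeff_ofCoeff]
    rfl
  have hmem : a₀ ∈ Rs p K 1 := by
    rw [mem_Rs]
    refine ⟨?_, ?_, ?_, one_mul _⟩
    · intro z hz
      by_contra h
      exact hz (by rw [ha₀]; exact (hF z).2 h)
    · intro g hg z
      rw [ha₀, ha₀]
      by_cases hz : z ∈ K
      · have hgz : g * z * g⁻¹ ∈ K := K.mul_mem (K.mul_mem hg hz) (K.inv_mem hg)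
        refine huni ((hF _).1 hgz) ?_
        obtain ⟨x, hx, y, hy, h, hc⟩ := (hF z).1 hz
        have e1 : y * g⁻¹ * pr p (g * z * g⁻¹) * (y * g⁻¹)⁻¹ = y * pr p z * y⁻¹ := by
          rw [pr_conj]; group
        refine ⟨x, hx, y * g⁻¹, K.mul_mem hy (K.inv_mem hg), ?_, ?_⟩
        · rw [e1]; exact h
        · rw [e1]; exact hc
      · have hgz : g * z * g⁻¹ ∉ K := by
          intro h
          apply hz
          have := K.mul_mem (K.mul_mem (K.inv_mem hg) h) hg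
          have e1 : g⁻¹ * (g * z * g⁻¹) * g = z := by group
          rwa [e1] at this
        rw [(hF _).2 hgz, (hF _).2 hz]
    · intro z hz
      rw [ha₀, ha₀]
      refine huni ((hF _).1 (pr_mem hz)) ?_
      obtain ⟨x, hx, y, hy, h, hc⟩ := (hF z).1 hz
      refine ⟨x, hx, y, hy, ?_, ?_⟩
      · rw [pr_pr]; exact h
      · rw [pr_pr]; exact hc
  have hres : ∀ x ∈ X, resS (cos M x) a₀ = f x := by
    intro x hx
    ext z
    by_cases hz : z ∈ cos M x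
    · rw [coeff_resS_of_mem _ hz, ha₀]
      exact hFx x hx z hz
    · rw [coeff_resS_of_notMem _ hz]
      by_contra h
      exact hz ((mem_Fs.mp (hf x hx)).1 z (Ne.symm h))
  have hbfix : b ∈ fixAlg k K K := mem_fixAlg.mpr ⟨hb.mono hMK, hbK⟩
  have hba : b * a₀ ∈ Rs p K b := mul_mem_Rs hbfix hbb hmem
  have hba1 : b * a₀ ∈ Rs p K 1 := by
    obtain ⟨h1, h2, h3, -⟩ := mem_Rs.mp hba
    exact mem_Rs.mpr ⟨h1, h2, h3, one_mul _⟩
  have hd : b * a₀ - a₀ ∈ Rs p K (1 : MonoidAlgebra k A) := Submodule.sub_mem _ hba1 hmem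
  have hd0 : b * a₀ - a₀ = 0 := by
    refine dec_inj hX hd ?_
    intro x hx
    have e1 : resS (cos M x) (b * a₀) = resS (cos M x) a₀ := by
      rw [resS_mul_cos hb, hres x hx]
      exact (mem_Fs.mp (hf x hx)).2.2.2
    ext z
    have e2 := congrArg (fun t => t.coeff z) e1
    by_cases hz : z ∈ cos M x
    · rw [coeff_resS_of_mem _ hz, coeff_resS_of_mem _ hz] at e2
      rw [coeff_resS_of_mem _ hz, coeff_sub, Finsupp.sub_apply, e2, sub_self]
      rfl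
    · rw [coeff_resS_of_notMem _ hz]
      rfl
  have hba0 : b * a₀ = a₀ := sub_eq_zero.mp hd0
  rw [hba0] at hba
  exact ⟨a₀, hba, hres⟩

end Pool.Agent.Lib.P0c8ca5.Bq
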