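import Mathlib
import Pool.Agent.Lib.P0c8ca5Q.DecB

/-!
# Module DecC: the dimension of `Rs` as a sum over the cosets

PROOF of `finrank_dec`.  The map `a ↦ (resS (cos M x) a)_x` is a linear map from `Rs p K b` to `Π x : X, Fs p K M b x` (`dec_mem`, `hX.sub`;
`resS_add`, `resS_smul`), injective (`dec_inj`) and surjective (`dec_surj`).  `LinearEquiv.ofBijective`,
`LinearEquiv.finrank_eq`, `Module.finrank_pi_fintype` (`Fs p K M b x` is free and finite: a subspace of the finite dimensional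
space `MonoidAlgebra k A`), `Finset.sum_coe_sort`.
PROOF of `exists_creps`.  On `{z // z ∈ K ∧ Prm p M z}` the relation `∃ y ∈ K, y z y⁻¹ z'⁻¹ ∈ M` is an equivalence (`K` normalizes
`M`); choose one element in each class (`Quotient.out`), `Finset.univ.image`.
-/

namespace Pool.Agent.Lib.P0c8ca5.Bq

open MonoidAlgebra Ps

variable {p : ℕ} {k : Type*} [Field k] {A : Type*} [Group A]

namespace DecCAux

theorem conj_mem {K M : Subgroup A} (hn : K ≤ Subgroup.normalizer (M : Set A)) {y m : A}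
    (hy : y ∈ K) (hm : m ∈ M) : y * m * y⁻¹ ∈ M :=
  (Subgroup.mem_normalizer_iff.1 (hn hy) m).1 hm

/-- the classes of the elements of `K` that are p-regular modulo `M` -/
def rel (p : ℕ) {K M : Subgroup A} (hn : K ≤ Subgroup.normalizer (M : Set A)) :
    Setoid {z : A // z ∈ K ∧ Prm p M z} where
  r z z' := ∃ y ∈ K, y * z.1 * y⁻¹ * z'.1⁻¹ ∈ M
  iseqv := by
    refine ⟨fun z => ⟨1, K.one_mem, ?_⟩, ?_, ?_⟩
    · have : (1 : A) * z.1 * 1⁻¹ * z.1⁻¹ = 1 := by group
      rw [this]; exact M.one_mem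
    · rintro z z' ⟨y, hy, h⟩
      refine ⟨y⁻¹, K.inv_mem hy, ?_⟩
      have h2 := conj_mem hn (K.inv_mem hy) (M.inv_mem h)
      have h3 : y⁻¹ * (y * z.1 * y⁻¹ * z'.1⁻¹)⁻¹ * y⁻¹⁻¹ = y⁻¹ * z'.1 * y⁻¹⁻¹ * z.1⁻¹ := by group
      rwa [h3] at h2
    · rintro z z' z'' ⟨y, hy, h⟩ ⟨y', hy', h'⟩
      refine ⟨y' * y, K.mul_mem hy' hy, ?_⟩
      have h2 := M.mul_mem (conj_mem hn hy' h) h'
      have h3 : y' * (y * z.1 * y⁻¹ * z'.1⁻¹) * y'⁻¹ * (y' * z'.1 * y'⁻¹ * z''.1⁻¹)
          = y' * y * z.1 * (y' * y)⁻¹ * z''.1⁻¹ := by group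
      rwa [h3] at h2

/-- the restrictions to the cosets -/
noncomputable def toPi [Fact p.Prime] [Fintype A] {K M : Subgroup A} (hMK : M ≤ K)
    (hn : K ≤ Subgroup.normalizer (M : Set A)) {b : MonoidAlgebra k A} (hb : SuppIn M b)
    {X : Finset A} (hX : CReps p K M X) :
    ↥(Rs p K b) →ₗ[k] ((x : X) → ↥(Fs p K M b x.1)) where
  toFun a := fun x => ⟨resS (cos M x.1) a.1,
    dec_mem hMK hn hb a.2 (hX.sub x.1 x.2).1 (hX.sub x.1 x.2).2⟩
  map_add' a a' := by
    funext x
    exact Subtype.ext (resS_add _ _ _)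
  map_smul' c a := by
    funext x
    exact Subtype.ext (resS_smul _ _ _)

end DecCAux

theorem finrank_dec [Fact p.Prime] [CharP k p] [IsAlgClosed k] [Fintype A] {K M : Subgroup A}
    (hMK : M ≤ K) (hn : K ≤ Subgroup.normalizer (M : Set A)) {b : MonoidAlgebra k A}
    (hb : SuppIn M b) (hbK : InvBy K b) (hbb : b * b = b) {X : Finset A}
    (hX : CReps p K M X) :
    Module.finrank k ↥(Rs p K b) = ∑ x ∈ X, Module.finrank k ↥(Fs p K M b x) := by
  classical
  haveI : Module.Finite k (MonoidAlgebra k A) := inferInstance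
  have hbij : Function.Bijective (DecCAux.toPi hMK hn hb hX) := by
    constructor
    · rw [injective_iff_map_eq_zero]
      intro a ha
      refine Subtype.ext (dec_inj hX a.2 fun x hx => ?_)
      exact congrArg Subtype.val (congrFun ha ⟨x, hx⟩)
    · intro f
      obtain ⟨a, ha, haf⟩ := dec_surj hMK hn hb hbK hbb hX
        (fun x => if hx : x ∈ X then (f ⟨x, hx⟩).1 else 0) (fun x hx => by
          simp only [dif_pos hx]
          exact (f ⟨x, hx⟩).2)
      refine ⟨⟨a, ha⟩, ?_⟩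
      funext x
      refine Subtype.ext ?_
      have h1 := haf x.1 x.2
      simp only [dif_pos x.2] at h1
      exact h1
  have e := (LinearEquiv.ofBijective _ hbij).finrank_eq
  rw [e, Module.finrank_pi_fintype, ← Finset.sum_coe_sort X]

theorem exists_creps (p : ℕ) [Fintype A] {K M : Subgroup A} (hMK : M ≤ K)
    (hn : K ≤ Subgroup.normalizer (M : Set A)) : ∃ X : Finset A, CReps p K M X := by
  classical
  haveI : Fintype (Quotient (DecCAux.rel p hn)) := Fintype.ofFinite _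
  refine ⟨Finset.univ.image (fun q : Quotient (DecCAux.rel p hn) => q.out.1), ?_, ?_, ?_⟩
  · intro x hx
    obtain ⟨q, -, rfl⟩ := Finset.mem_image.1 hx
    exact q.out.2
  · intro z hz hzr
    obtain ⟨y, hy, h⟩ := (DecCAux.rel p hn).symm (Quotient.mk_out
      (s := DecCAux.rel p hn) (⟨z, hz, hzr⟩ : {z : A // z ∈ K ∧ Prm p M z}))
    exact ⟨_, Finset.mem_image.2 ⟨_, Finset.mem_univ _, rfl⟩, y, hy, h⟩
  · intro x hx x' hx' y hy h
    obtain ⟨q, -, rfl⟩ := Finset.mem_image.1 hx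
    obtain ⟨q', -, rfl⟩ := Finset.mem_image.1 hx'
    have h1 : (DecCAux.rel p hn).r q.out q'.out := ⟨y, hy, h⟩
    have h2 : q = q' := by
      rw [← Quotient.out_eq q, ← Quotient.out_eq q']
      exact Quotient.sound h1
    rw [h2]

end Pool.Agent.Lib.P0c8ca5.Bq
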