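import Mathlib
import Pool.Agent.Lib.P0c8ca5Q.IsoC
import Pool.Agent.Lib.P0c8ca5Q.Cls
import Pool.Agent.Lib.P0c8ca5Q.DecC
import Pool.Agent.Lib.P0c8ca5Q.Sup
import Pool.Agent.Lib.P0c8ca5S.Wgt

/-!
# Blockwise comparison of `(K, b)` and `(N_K(P), Br_P(b))`
-/

namespace Pool.Agent.Lib.P0c8ca5.Bq

open MonoidAlgebra Ps

variable {p : ℕ} {k : Type*} [Field k] {A : Type*} [Group A] {N K P : Subgroup A}
  {e : MonoidAlgebra k A}

theorem Par.card_irX_eq [Fact p.Prime] [CharP k p] [IsAlgClosed k] [Fintype A]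
    (h : Par p N K P e) (hNP : K ≤ Subgroup.normalizer ((N ⊔ P : Subgroup A) : Set A))
    {b : MonoidAlgebra k A} (hb : b ∈ fixAlg k K K) (hbb : b * b = b) (heb : e * b = b) :
    Nat.card (IrX K b) = Nat.card (IrX (Lp K P) (br P b)) := by
  classical
  have hbK : InvBy K b := (mem_fixAlg.1 hb).2
  have hsupp := h.supp_N1 hNP hb hbb heb
  obtain ⟨h1, h2, h3, h4⟩ := h.br_fix hb hbb heb
  have hCL : Cp K P ≤ Lp K P :=
    inf_le_inf_left _ (Subgroup.centralizer_le_normalizer _)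
  have hNK : N ⊔ Cp K P ≤ K := sup_le h.tri.le inf_le_left
  obtain ⟨X, hX⟩ := exists_creps p hCL (norm_Cp K P)
  have hX' := creps_up h hNP hX
  have hb' : br P b ∈ fixAlg k (Lp K P) (Lp K P) :=
    mem_fixAlg.2 ⟨h1.mono hCL, h2⟩
  rw [← finrank_Rs (p := p) hb hbb, ← finrank_Rs (p := p) hb' h3,
    finrank_dec hNK (h.norm_N1 hNP) hsupp hbK hbb hX',
    finrank_dec hCL (norm_Cp K P) h1 h2 h3 hX]
  refine Finset.sum_congr rfl fun x hx => ?_
  exact h.finrank_Fs hNP hsupp hbK heb (hX.sub x hx).1 (hX.sub x hx).2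

/-- the weight equality for `(N_K(P), Br_P(b))` implies that for `(K, b)` -/
theorem Par.weq_up [Fact p.Prime] [CharP k p] [IsAlgClosed k] [Fintype A]
    (h : Par p N K P e) (hNP : K ≤ Subgroup.normalizer ((N ⊔ P : Subgroup A) : Set A))
    {b : MonoidAlgebra k A} (hb : b ∈ fixAlg k K K) (hbb : b * b = b) (heb : e * b = b)
    (hw : Cy.WEq p (Lp K P) (br P b)) : Cy.WEq p K b := by
  have h1 := ws_eq_of h.tri (mem_fixAlg.1 hb).1 (mem_fixAlg.1 hb).2 hbb heb h.PK h.PP hNP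
  have h2 := h.card_irX_eq hNP hb hbb heb
  have h3 : Nat.card ↥(Lp K P) * Nat.card (IrX (Lp K P) (br P b))
      = Fr.Ws p (Lp K P) (br P b) := hw
  have hpos : 0 < Nat.card ↥(Lp K P) := Nat.card_pos
  change Nat.card K * Nat.card (IrX K b) = Fr.Ws p K b
  apply Nat.eq_of_mul_eq_mul_right hpos
  have h4 : Fr.Ws p K b * Nat.card ↥(Lp K P)
      = Nat.card K * Fr.Ws p (Lp K P) (br P b) := h1
  rw [h4, ← h3, h2]
  ring

end Pool.Agent.Lib.P0c8ca5.Bq
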