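import Mathlib
import Pool.Agent.Lib.P0c8ca5P.Red
import Pool.Agent.Lib.P0c8ca5Q.IrrB
import Pool.Agent.Lib.P0c8ca5B.BaseCyc

/-!
# Reduction of the blockwise weight conjecture to reduced blocks with `O_p(H / N) = 1`
-/

namespace Pool.Agent.Lib.P0c8ca5

open MonoidAlgebra

universe u v

/-- `b` is the idempotent of a strongly reduced block of `H`: `O^p(H) = H`, `O_p(H / N) = 1` for every
normal subgroup `N` of `H` of order prime to `p`, for every normal subgroup `N` of `H` there is only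
one block `c` of `N` which is covered by the block, the block is faithful (only the identity of `H`
acts trivially on `kHb`), every abelian normal subgroup of `H` is central, and the centre of `H` is
cyclic. -/
structure Reduced2 (p : ℕ) {k : Type*} [Field k] {H : Type*} [Group H] (b : MonoidAlgebra k H) :
    Prop where
  block : IsBlock ⊤ b
  residual : ∀ (N : Subgroup H) [N.Normal], IsPGroup p (H ⧸ N) → N = ⊤
  quot : ∀ N M : Subgroup H, N.Normal → M.Normal → N ≤ M → ¬ p ∣ Nat.card N →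
    (∀ x ∈ M, ∃ n : ℕ, x ^ p ^ n ∈ N) → M = N
  prim : ∀ N : Subgroup H, N.Normal → ∃! c : MonoidAlgebra k H, IsBlock N c ∧ b * c ≠ 0
  faithful : ∀ x : H, single x (1 : k) * b = b → x = 1
  abelian : ∀ N : Subgroup H, N.Normal → (∀ x ∈ N, ∀ y ∈ N, x * y = y * x) →
    N ≤ Subgroup.center H
  cyclic : IsCyclic (Subgroup.center H)

namespace Red2Aux

variable {p : ℕ} {k : Type*} [Field k] {A : Type*} [Group A]

theorem navarro_of_weq [Fact p.Prime] [CharP k p] [IsAlgClosed k] [Fintype A]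
    {b : MonoidAlgebra k A} (hb : IsBlock (⊤ : Subgroup A) b) (hw : Cy.WEq p ⊤ b) :
    NavarroEq p ⊤ ⊤ b := by
  classical
  intro T hT1 hT2
  rw [card_irr_eq]
  have hD : ∀ Q : Subgroup A, Q ∈ Finset.univ.filter (fun Q : Subgroup A => Q ≤ ⊤ ∧ IsPGroup p Q)
      ↔ Q ≤ ⊤ ∧ IsPGroup p Q := by
    intro Q
    rw [Finset.mem_filter]
    exact ⟨fun h => h.2, fun h => ⟨Finset.mem_univ _, h⟩⟩
  have h1 := sum_DZ_eq hb T hT1 hT2 _ hD
  have h2 : Nat.card (⊤ : Subgroup A) * Nat.card (IrX ⊤ b)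
      = Nat.card (⊤ : Subgroup A) * ∑ Q ∈ T, Nat.card (DZ p ⊤ b Q) := by
    rw [h1]
    change Nat.card (⊤ : Subgroup A) * Nat.card (IrX ⊤ b) = _ at hw
    rw [hw]
    unfold Fr.Ws
    exact Finset.sum_congr (Finset.filter_congr_decidable _ _ _) (fun _ _ => rfl)
  exact Nat.eq_of_mul_eq_mul_left Nat.card_pos h2

/-- a Sylow subgroup generates a p-power extension -/
theorem exists_sylow [Fact p.Prime] [Finite A] {N M : Subgroup A} (hN : N.Normal) (hNM : N ≤ M)
    (hpM : ∀ x ∈ M, ∃ n : ℕ, x ^ p ^ n ∈ N) :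
    ∃ P : Subgroup A, P ≤ M ∧ IsPGroup p P ∧ N ⊔ P = M := by
  classical
  let S : Sylow p ↥M := default
  let N' : Subgroup ↥M := N.subgroupOf M
  have hN' : N'.Normal := inferInstance
  have hq : IsPGroup p (↥M ⧸ N') := by
    intro x
    obtain ⟨y, rfl⟩ := QuotientGroup.mk_surjective x
    obtain ⟨n, hn⟩ := hpM y y.2
    refine ⟨n, ?_⟩
    rw [← QuotientGroup.mk_pow, QuotientGroup.eq_one_iff]
    exact Subgroup.mem_subgroupOf.2 (by rw [Subgroup.coe_pow]; exact hn)
  obtain ⟨j, hj⟩ := IsPGroup.iff_card.1 hq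
  have hidx : N'.index = p ^ j := by
    rw [Subgroup.index_eq_card]
    exact hj
  have h1 : (N' ⊔ (S : Subgroup ↥M)).index ∣ p ^ j := by
    rw [← hidx]
    exact Subgroup.index_dvd_of_le le_sup_left
  have h2 : (N' ⊔ (S : Subgroup ↥M)).index ∣ (S : Subgroup ↥M).index :=
    Subgroup.index_dvd_of_le le_sup_right
  have h3 : ¬ p ∣ (S : Subgroup ↥M).index := S.not_dvd_index
  obtain ⟨i, _, hi⟩ := (Nat.dvd_prime_pow (Fact.out : p.Prime)).1 h1
  have h4 : i = 0 := by
    by_contra h0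
    apply h3
    exact (dvd_pow_self p h0).trans (hi ▸ h2)
  have h5 : N' ⊔ (S : Subgroup ↥M) = ⊤ := by
    rw [← Subgroup.index_eq_one, hi, h4, pow_zero]
  refine ⟨(S : Subgroup ↥M).map M.subtype, ?_, S.isPGroup'.map _, ?_⟩
  · rintro _ ⟨y, _, rfl⟩
    exact y.2
  · have h6 := congrArg (Subgroup.map M.subtype) h5
    rw [Subgroup.map_sup, Subgroup.subgroupOf_map_subtype, inf_eq_left.2 hNM,
      ← MonoidHom.range_eq_map, Subgroup.range_subtype] at h6
    exact h6

theorem step_quot [Fact p.Prime] [CharP k p] [IsAlgClosed k] [Fintype A]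
    {b : MonoidAlgebra k A} (hb : Reduced p b) {N M : Subgroup A} (hN : N.Normal)
    (hM : M.Normal) (hNM : N ≤ M) (hpN : ¬ p ∣ Nat.card N)
    (hpM : ∀ x ∈ M, ∃ n : ℕ, x ^ p ^ n ∈ N) (hne : M ≠ N)
    (IH : ∀ Y : Subgroup A, Y ≠ ⊤ → ∀ c : MonoidAlgebra k A, IsBlock Y c →
      (∀ P : Subgroup A, P ≤ Y → IsPGroup p P → HasBr P c → HasBr P b) → NavarroEq p Y Y c) :
    NavarroEq p ⊤ ⊤ b := by
  classical
  obtain ⟨P, hPM, hP, hNP⟩ := exists_sylow hN hNM hpM
  have hPne : P ≠ ⊥ := by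
    intro h0
    rw [h0, sup_bot_eq] at hNP
    exact hne hNP.symm
  -- the block of `N`
  obtain ⟨e, ⟨he, hbe⟩, huniq⟩ := hb.prim N hN
  have hinv : InvBy (⊤ : Subgroup A) e := by
    rw [invBy_iff_cj]
    intro g _
    apply huniq
    refine ⟨orb_isBlock (K := ⊤) (fun x _ => mem_norm_of_normal N x) he _
      (mem_orb.2 ⟨g, Subgroup.mem_top g, rfl⟩), ?_⟩
    intro h0
    apply hbe
    have h1 := congrArg (cj g⁻¹) h0
    rw [cj_mul, Fr.cj_top hb.block.mem, cj_cj, inv_mul_cancel, cj_one_left, cj_zero] at h1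
    exact h1
  have hmem : e ∈ fixAlg k (⊤ : Subgroup A) ⊤ :=
    mem_fixAlg.2 ⟨fun _ _ => Subgroup.mem_top _, hinv⟩
  have heb : e * b = b := by
    rcases hb.block.mul_eq hmem he.idem with h | h
    · exfalso
      apply hbe
      rw [Fr.comm_top hb.block.mem e, h]
    · exact h
  have htri : Ps.Tri p N ⊤ e :=
    { le := le_top
      nm := fun x _ => mem_norm_of_normal N x
      pp := hpN
      blk := he
      inv := hinv }
  have hpar : Bq.Par p N ⊤ P e := ⟨htri, le_top, hP⟩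
  have hnorm : (⊤ : Subgroup A) ≤ Subgroup.normalizer ((N ⊔ P : Subgroup A) : Set A) := by
    rw [hNP]
    exact fun x _ => mem_norm_of_normal M x
  apply navarro_of_weq hb.block
  apply hpar.weq_up hnorm hb.block.mem hb.block.idem heb
  obtain ⟨h1, h2, h3, h4⟩ := hpar.br_fix hb.block.mem hb.block.idem heb
  have hCL : Bq.Cp (⊤ : Subgroup A) P ≤ Bq.Lp ⊤ P :=
    inf_le_inf_left _ (Subgroup.centralizer_le_normalizer _)
  apply Cy.weq_of_blocks (h1.mono hCL) h2 h3
  intro c hc hcb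
  apply IH (Bq.Lp ⊤ P) ?_ c hc
  · intro Q hQ hpQ hbr
    have hcomm : Ps.br P b * c = c * Ps.br P b := commute_of (h1.mono hCL) hc.invBy
    have hcb' : c * Ps.br P b = c := by
      rcases hc.mul_eq (mem_fixAlg.2 ⟨h1.mono hCL, h2⟩) h3 with h | h
      · rw [hcomm] at h
        exact absurd h hcb
      · rw [← hcomm]
        exact h
    obtain ⟨x, hx, hx0⟩ := hasBr_of_mul (p := p) hpQ (hc.invBy.mono hQ) (h2.mono hQ) hcb' hbr
    refine ⟨x, hx, fun h0 => hx0 ?_⟩
    change (resS (Subgroup.centralizer (P : Set A) : Set A) b).coeff x = 0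
    rw [coeff_resS]
    split_ifs
    · exact h0
    · rfl
  · intro h0
    apply hPne
    apply hb.core P _ hP
    rw [← Subgroup.normalizer_eq_top_iff, ← top_le_iff, ← h0]
    exact inf_le_right

end Red2Aux

open Red2Aux

theorem IsSection.card_le {H G : Type*} [Group H] [Group G] [Finite G] (h : IsSection H G) :
    Nat.card H ≤ Nat.card G := by
  obtain ⟨K, f, hf⟩ := h
  exact (Nat.card_le_card_of_surjective f hf).trans (Subgroup.card_le_card_group K)

/-- the reduction of the blockwise weight conjecture to strongly reduced blocks -/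
theorem baw_of_reduced2 {p : ℕ} [Fact p.Prime] {k : Type v} [Field k] [IsAlgClosed k] [CharP k p]
    {G₀ : Type*} [Group G₀] (C : ∀ (P : Type u) [Group P], Prop)
    (hC : ∀ (P P' : Type u) [Group P] [Group P'], IsSection P' P → C P → C P')
    (hred : ∀ (H : Type u) [Group H] [Finite H], IsSection H G₀ → ∀ b : MonoidAlgebra k H,
      Reduced2 p b → DefCond C p b →
      (∃ P : Subgroup H, IsPGroup p P ∧ HasBr P b ∧ ¬ IsCyclic P) → NavarroEq p ⊤ ⊤ b) :
    ∀ (n : ℕ) (H : Type u) [Group H] [Finite H], Nat.card H = n → IsSection H G₀ →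
      ∀ b : MonoidAlgebra k H, IsBlock ⊤ b → DefCond C p b → NavarroEq p ⊤ ⊤ b := by
  intro n
  induction n using Nat.strong_induction_on with
  | _ n ih =>
  intro H _ _ hcard hsec b hb hdef
  refine baw_of_reduced (p := p) (k := k) (G₀ := H) C hC ?_ n H hcard (IsSection.refl H) b hb hdef
  intro H' _ _ hsec' b' hb' hdef' _
  have hle : Nat.card H' ≤ n := by
    rw [← hcard]
    exact hsec'.card_le
  rcases lt_or_eq_of_le hle with hlt | heq
  · exact ih _ hlt H' rfl (hsec'.trans hsec) b' hb'.block hdef'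
  by_cases hq : ∀ N M : Subgroup H', N.Normal → M.Normal → N ≤ M → ¬ p ∣ Nat.card N →
      (∀ x ∈ M, ∃ n : ℕ, x ^ p ^ n ∈ N) → M = N
  · by_cases hcyc : ∀ P : Subgroup H', IsPGroup p P → HasBr P b' → IsCyclic P
    · have : Fintype H' := Fintype.ofFinite H'
      exact Cb.base_cyc H' b' hb'.block (fun P _ hP hbr => ⟨hcyc P hP hbr, trivial⟩)
    · push Not at hcyc
      exact hred H' (hsec'.trans hsec) b' ⟨hb'.block, hb'.residual, hq, hb'.prim, hb'.faithful,
        hb'.abelian, hb'.cyclic⟩ hdef' hcyc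
  · push Not at hq
    obtain ⟨N, M, hN, hM, hNM, hpN, hpM, hne⟩ := hq
    have : Fintype H' := Fintype.ofFinite H'
    apply step_quot hb' hN hM hNM hpN hpM hne
    intro Y hY c hc hbr
    apply navarro_transport hc
    refine ih (Nat.card Y) ?_ Y rfl
      (((IsSection.of_subgroup Y).trans hsec').trans hsec) _ (dn_isBlock hc) ?_
    · rw [← heq]
      exact lt_of_le_of_ne (Subgroup.card_le_card_group Y)
        (fun h => hY (Subgroup.eq_top_of_card_eq Y h))
    · intro P hpP hbrP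
      refine hC _ _ (RedAux.isSection_map P) (hdef' _ (hpP.map _) (hbr _ ?_ (hpP.map _)
        (RedAux.hasBr_up' hbrP)))
      rintro _ ⟨x, _, rfl⟩
      exact x.2

end Pool.Agent.Lib.P0c8ca5
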